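import Mathlib

namespace Pool.Agent.Helper577

open Filter Topology

/-- uniform geometric convergence of continuous functions -/
theorem geom_limit {α : Type*} [TopologicalSpace α] (g : ℕ → α → ℝ) (hg : ∀ n, Continuous (g n))
    (C r : ℝ) (hr : r < 1) (h : ∀ n x, |g (n + 1) x - g n x| ≤ C * r ^ n) (hr0 : 0 ≤ r) :
    ∃ G : α → ℝ, Continuous G ∧ ∀ x, Tendsto (fun n => g n x) atTop (𝓝 (G x)) := by
  have hd : ∀ x n, dist (g n x) (g (n + 1) x) ≤ C * r ^ n := by
    intro x n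
    rw [dist_comm, Real.dist_eq]
    exact h n x
  have hc : ∀ x, ∃ y, Tendsto (fun n => g n x) atTop (𝓝 y) := fun x =>
    cauchySeq_tendsto_of_complete (cauchySeq_of_le_geometric r C hr (hd x))
  choose G hG using hc
  refine ⟨G, ?_, hG⟩
  have hu : TendstoUniformly g G atTop := by
    rw [Metric.tendstoUniformly_iff]
    intro ε hε
    have hlim : Tendsto (fun n : ℕ => C * r ^ n / (1 - r)) atTop (𝓝 (C * 0 / (1 - r))) :=
      ((tendsto_pow_atTop_nhds_zero_of_lt_one hr0 hr).const_mul C).div_const _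
    rw [mul_zero, zero_div] at hlim
    filter_upwards [hlim.eventually (gt_mem_nhds hε)] with n hn x
    rw [dist_comm]
    exact lt_of_le_of_lt (dist_le_of_le_geometric_of_tendsto r C hr (hd x) (hG x) n) hn
  exact hu.continuous (Frequently.of_forall hg)

noncomputable def cs (s : ℝ) : ℝ := max (-1 / 2) (min s (-1 / 5))
noncomputable def pp (s : ℝ) : ℝ := (1 + cs s) / (1 + cs s ^ 2)
noncomputable def qq (s : ℝ) : ℝ := cs s * (1 + cs s) / (1 + cs s ^ 2)
noncomputable def mm (s : ℝ) : ℝ := -2 * cs s / (1 + cs s ^ 2)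

theorem cs_mem (s : ℝ) : -1 / 2 ≤ cs s ∧ cs s ≤ -1 / 5 :=
  ⟨le_max_left _ _, max_le (by norm_num) (min_le_right _ _)⟩

theorem cs_eq {s : ℝ} (h1 : -1 / 2 ≤ s) (h2 : s ≤ -1 / 5) : cs s = s := by
  unfold cs; rw [min_eq_left h2, max_eq_right h1]

theorem den_pos (s : ℝ) : 0 < 1 + s ^ 2 := by positivity

theorem continuous_cs : Continuous cs := by unfold cs; fun_prop
theorem continuous_pp : Continuous pp := by
  unfold pp
  have := continuous_cs
  exact Continuous.div (by fun_prop) (by fun_prop) (fun s => (den_pos _).ne')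
theorem continuous_qq : Continuous qq := by
  unfold qq
  have := continuous_cs
  exact Continuous.div (by fun_prop) (by fun_prop) (fun s => (den_pos _).ne')
theorem continuous_mm : Continuous mm := by
  unfold mm
  have := continuous_cs
  exact Continuous.div (by fun_prop) (by fun_prop) (fun s => (den_pos _).ne')

theorem pq_eq (s : ℝ) : pp s + qq s = 1 - mm s := by
  unfold pp qq mm
  have := (den_pos (cs s)).ne'
  field_simp
  ring

theorem pp_nonneg (s : ℝ) : 0 ≤ pp s := by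
  unfold pp
  have := cs_mem s
  exact div_nonneg (by linarith) (den_pos _).le

theorem pp_le (s : ℝ) : pp s ≤ 10 / 13 := by
  unfold pp
  have := cs_mem s
  rw [div_le_div_iff₀ (den_pos _) (by norm_num)]
  nlinarith

theorem mm_nonneg (s : ℝ) : 0 ≤ mm s := by
  unfold mm
  have := cs_mem s
  exact div_nonneg (by linarith) (den_pos _).le

theorem mm_le (s : ℝ) : mm s ≤ 4 / 5 := by
  unfold mm
  have := cs_mem s
  rw [div_le_div_iff₀ (den_pos _) (by norm_num)]
  nlinarith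

theorem qq_nonpos (s : ℝ) : qq s ≤ 0 := by
  unfold qq
  have := cs_mem s
  apply div_nonpos_of_nonpos_of_nonneg _ (den_pos _).le
  nlinarith

theorem qq_ge (s : ℝ) : -(11 / 50) ≤ qq s := by
  unfold qq
  have := cs_mem s
  rw [le_div_iff₀ (den_pos _)]
  nlinarith [sq_nonneg (cs s * 61 + 25)]

/-- the two affine maps -/
noncomputable def S0 (s : ℝ) (w : ℝ × ℝ) : ℝ × ℝ :=
  (pp s * w.1, (1 - mm s) - pp s * w.1 + mm s * w.2)
noncomputable def S1 (s : ℝ) (w : ℝ × ℝ) : ℝ × ℝ :=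
  ((1 - mm s) + mm s * w.1 - qq s * w.2, qq s * w.2)

/-- the iteration -/
noncomputable def W : ℕ → ℝ × ℝ → ℝ × ℝ
  | 0 => fun z => (max 0 (min z.2 1), 1 - max 0 (min z.2 1))
  | n + 1 => fun z => if z.2 ≤ 1 / 2 then S0 z.1 (W n (z.1, 2 * z.2))
      else S1 z.1 (W n (z.1, 2 * z.2 - 1))

theorem W_left (n : ℕ) (s u : ℝ) (hu : u ≤ 0) : W n (s, u) = (0, 1) := by
  induction n generalizing u with
  | zero =>
    simp only [W]
    rw [min_eq_left (by linarith), max_eq_left hu]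
    simp
  | succ n ih =>
    simp only [W]
    rw [if_pos (by linarith), ih _ (by linarith)]
    simp [S0]

theorem W_right (n : ℕ) (s u : ℝ) (hu : 1 ≤ u) : W n (s, u) = (1, 0) := by
  induction n generalizing u with
  | zero =>
    simp only [W]
    rw [min_eq_right (by linarith), max_eq_right (by norm_num)]
    simp
  | succ n ih =>
    simp only [W]
    rw [if_neg (by linarith), ih _ (by linarith)]
    simp [S1]

theorem W_continuous (n : ℕ) : Continuous (W n) := by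
  induction n with
  | zero => unfold W; fun_prop
  | succ n ih =>
    unfold W
    have h1 := continuous_pp
    have h2 := continuous_qq
    have h3 := continuous_mm
    refine Continuous.if_le (f' := fun z : ℝ × ℝ => S0 z.1 (W n (z.1, 2 * z.2)))
      (g' := fun z : ℝ × ℝ => S1 z.1 (W n (z.1, 2 * z.2 - 1))) ?_ ?_ continuous_snd
      continuous_const ?_
    · unfold S0; fun_prop
    · unfold S1; fun_prop
    · intro z hz
      have hz' : z.2 = 1 / 2 := hz
      simp only [hz']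
      rw [W_right n _ _ (by norm_num), W_left n _ _ (by norm_num)]
      have := pq_eq z.1
      simp only [S0, S1]
      ext <;> simp <;> linarith

theorem S0_diff (s : ℝ) (w w' : ℝ × ℝ) :
    7 * |(S0 s w).1 - (S0 s w').1| + 2 * |(S0 s w).2 - (S0 s w').2|
      ≤ 99 / 100 * (7 * |w.1 - w'.1| + 2 * |w.2 - w'.2|) := by
  have e1 : (S0 s w).1 - (S0 s w').1 = pp s * (w.1 - w'.1) := by simp only [S0]; ring
  have e2 : (S0 s w).2 - (S0 s w').2 = mm s * (w.2 - w'.2) - pp s * (w.1 - w'.1) := by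
    simp only [S0]; ring
  rw [e1, e2]
  have h1 := pp_nonneg s
  have h2 := pp_le s
  have h3 := mm_nonneg s
  have h4 := mm_le s
  have h5 : |pp s * (w.1 - w'.1)| = pp s * |w.1 - w'.1| := by rw [abs_mul, abs_of_nonneg h1]
  have h6 : |mm s * (w.2 - w'.2)| = mm s * |w.2 - w'.2| := by rw [abs_mul, abs_of_nonneg h3]
  have h7 := abs_sub (mm s * (w.2 - w'.2)) (pp s * (w.1 - w'.1))
  rw [h5, h6] at h7
  rw [h5]
  have h8 : pp s * |w.1 - w'.1| ≤ 10 / 13 * |w.1 - w'.1| :=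
    mul_le_mul_of_nonneg_right h2 (abs_nonneg _)
  have h9 : mm s * |w.2 - w'.2| ≤ 4 / 5 * |w.2 - w'.2| :=
    mul_le_mul_of_nonneg_right h4 (abs_nonneg _)
  have h10 := abs_nonneg (w.1 - w'.1)
  have h11 := abs_nonneg (w.2 - w'.2)
  linarith

theorem S1_diff (s : ℝ) (w w' : ℝ × ℝ) :
    7 * |(S1 s w).1 - (S1 s w').1| + 2 * |(S1 s w).2 - (S1 s w').2|
      ≤ 99 / 100 * (7 * |w.1 - w'.1| + 2 * |w.2 - w'.2|) := by
  have e1 : (S1 s w).1 - (S1 s w').1 = mm s * (w.1 - w'.1) - qq s * (w.2 - w'.2) := by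
    simp only [S1]; ring
  have e2 : (S1 s w).2 - (S1 s w').2 = qq s * (w.2 - w'.2) := by
    simp only [S1]; ring
  rw [e1, e2]
  have h1 := qq_nonpos s
  have h2 := qq_ge s
  have h3 := mm_nonneg s
  have h4 := mm_le s
  have h5 : |qq s * (w.2 - w'.2)| = -qq s * |w.2 - w'.2| := by rw [abs_mul, abs_of_nonpos h1]
  have h6 : |mm s * (w.1 - w'.1)| = mm s * |w.1 - w'.1| := by rw [abs_mul, abs_of_nonneg h3]
  have h7 := abs_sub (mm s * (w.1 - w'.1)) (qq s * (w.2 - w'.2))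
  rw [h5, h6] at h7
  rw [h5]
  have h8 : -qq s * |w.2 - w'.2| ≤ 11 / 50 * |w.2 - w'.2| :=
    mul_le_mul_of_nonneg_right (by linarith) (abs_nonneg _)
  have h9 : mm s * |w.1 - w'.1| ≤ 4 / 5 * |w.1 - w'.1| :=
    mul_le_mul_of_nonneg_right h4 (abs_nonneg _)
  have h10 := abs_nonneg (w.1 - w'.1)
  have h11 := abs_nonneg (w.2 - w'.2)
  linarith

theorem W_diff (n : ℕ) (z : ℝ × ℝ) :
    7 * |(W (n + 1) z).1 - (W n z).1| + 2 * |(W (n + 1) z).2 - (W n z).2|
      ≤ 100 * (99 / 100 : ℝ) ^ n := by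
  induction n generalizing z with
  | zero =>
    have b0 : ∀ z, 0 ≤ (W 0 z).1 ∧ (W 0 z).1 ≤ 1 ∧ 0 ≤ (W 0 z).2 ∧ (W 0 z).2 ≤ 1 := by
      intro z
      simp only [W]
      have h1 : (0 : ℝ) ≤ max 0 (min z.2 1) := le_max_left _ _
      have h2 : max 0 (min z.2 1) ≤ (1 : ℝ) := max_le (by norm_num) (min_le_right _ _)
      exact ⟨h1, h2, by linarith, by linarith⟩
    have h1 := pp_nonneg z.1
    have h2 := pp_le z.1
    have h3 := mm_nonneg z.1
    have h4 := mm_le z.1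
    have h5 := qq_nonpos z.1
    have h6 := qq_ge z.1
    have b1 : -3 ≤ (W 1 z).1 ∧ (W 1 z).1 ≤ 3 ∧ -3 ≤ (W 1 z).2 ∧ (W 1 z).2 ≤ 3 := by
      have e : W 1 z = if z.2 ≤ 1 / 2 then S0 z.1 (W 0 (z.1, 2 * z.2))
        else S1 z.1 (W 0 (z.1, 2 * z.2 - 1)) := rfl
      rw [e]
      split_ifs
      · obtain ⟨a1, a2, a3, a4⟩ := b0 (z.1, 2 * z.2)
        simp only [S0]
        refine ⟨?_, ?_, ?_, ?_⟩ <;> nlinarith
      · obtain ⟨a1, a2, a3, a4⟩ := b0 (z.1, 2 * z.2 - 1)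
        simp only [S1]
        refine ⟨?_, ?_, ?_, ?_⟩ <;> nlinarith
    obtain ⟨a1, a2, a3, a4⟩ := b0 z
    obtain ⟨a5, a6, a7, a8⟩ := b1
    have c1 : |(W (0 + 1) z).1 - (W 0 z).1| ≤ 4 := by
      rw [abs_le]; constructor <;> simp only [zero_add] <;> linarith
    have c2 : |(W (0 + 1) z).2 - (W 0 z).2| ≤ 4 := by
      rw [abs_le]; constructor <;> simp only [zero_add] <;> linarith
    rw [pow_zero]
    linarith
  | succ n ih =>
    have e : ∀ m, W (m + 1) z = if z.2 ≤ 1 / 2 then S0 z.1 (W m (z.1, 2 * z.2))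
      else S1 z.1 (W m (z.1, 2 * z.2 - 1)) := fun m => rfl
    rw [e (n + 1), e n]
    split_ifs
    · refine (S0_diff _ _ _).trans ?_
      have := ih (z.1, 2 * z.2)
      rw [pow_succ]
      linarith
    · refine (S1_diff _ _ _).trans ?_
      have := ih (z.1, 2 * z.2 - 1)
      rw [pow_succ]
      linarith

theorem W_diff1 (n : ℕ) (z : ℝ × ℝ) :
    |(W (n + 1) z).1 - (W n z).1| ≤ 100 * (99 / 100 : ℝ) ^ n := by
  have := W_diff n z
  have h1 := abs_nonneg ((W (n + 1) z).1 - (W n z).1)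
  have h2 := abs_nonneg ((W (n + 1) z).2 - (W n z).2)
  linarith

theorem W_diff2 (n : ℕ) (z : ℝ × ℝ) :
    |(W (n + 1) z).2 - (W n z).2| ≤ 100 * (99 / 100 : ℝ) ^ n := by
  have := W_diff n z
  have h1 := abs_nonneg ((W (n + 1) z).1 - (W n z).1)
  have h2 := abs_nonneg ((W (n + 1) z).2 - (W n z).2)
  linarith

/-- The curve: jointly continuous functions `X`, `Y` with the self-affine relations. -/
theorem exists_curve : ∃ X Y : ℝ × ℝ → ℝ, Continuous X ∧ Continuous Y ∧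
    (∀ z, Tendsto (fun n => (W n z).1) atTop (𝓝 (X z))) ∧
    (∀ z, Tendsto (fun n => (W n z).2) atTop (𝓝 (Y z))) := by
  obtain ⟨X, hX, hX'⟩ := geom_limit (fun n z => (W n z).1) (fun n => (W_continuous n).fst) 100
    (99 / 100) (by norm_num) W_diff1 (by norm_num)
  obtain ⟨Y, hY, hY'⟩ := geom_limit (fun n z => (W n z).2) (fun n => (W_continuous n).snd) 100
    (99 / 100) (by norm_num) W_diff2 (by norm_num)
  exact ⟨X, Y, hX, hY, hX', hY'⟩

noncomputable def X : ℝ × ℝ → ℝ := exists_curve.choose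
noncomputable def Y : ℝ × ℝ → ℝ := exists_curve.choose_spec.choose
theorem X_continuous : Continuous X := exists_curve.choose_spec.choose_spec.1
theorem Y_continuous : Continuous Y := exists_curve.choose_spec.choose_spec.2.1
theorem X_tendsto (z : ℝ × ℝ) : Tendsto (fun n => (W n z).1) atTop (𝓝 (X z)) :=
  exists_curve.choose_spec.choose_spec.2.2.1 z
theorem Y_tendsto (z : ℝ × ℝ) : Tendsto (fun n => (W n z).2) atTop (𝓝 (Y z)) :=
  exists_curve.choose_spec.choose_spec.2.2.2 z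

theorem X_left (s u : ℝ) (hu : u ≤ 0) : X (s, u) = 0 := by
  have h := X_tendsto (s, u)
  simp_rw [fun n => W_left n s u hu] at h
  exact tendsto_nhds_unique h tendsto_const_nhds

theorem Y_left (s u : ℝ) (hu : u ≤ 0) : Y (s, u) = 1 := by
  have h := Y_tendsto (s, u)
  simp_rw [fun n => W_left n s u hu] at h
  exact tendsto_nhds_unique h tendsto_const_nhds

theorem X_right (s u : ℝ) (hu : 1 ≤ u) : X (s, u) = 1 := by
  have h := X_tendsto (s, u)
  simp_rw [fun n => W_right n s u hu] at h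
  exact tendsto_nhds_unique h tendsto_const_nhds

theorem Y_right (s u : ℝ) (hu : 1 ≤ u) : Y (s, u) = 0 := by
  have h := Y_tendsto (s, u)
  simp_rw [fun n => W_right n s u hu] at h
  exact tendsto_nhds_unique h tendsto_const_nhds

theorem W_half0 (n : ℕ) (s u : ℝ) (hu : u ≤ 1) : W (n + 1) (s, u / 2) = S0 s (W n (s, u)) := by
  have e : W (n + 1) (s, u / 2) = if u / 2 ≤ 1 / 2 then S0 s (W n (s, 2 * (u / 2)))
      else S1 s (W n (s, 2 * (u / 2) - 1)) := rfl
  rw [e, if_pos (by linarith)]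
  congr 3
  ring

theorem W_half1 (n : ℕ) (s u : ℝ) (hu : 0 ≤ u) :
    W (n + 1) (s, (u + 1) / 2) = S1 s (W n (s, u)) := by
  have e : W (n + 1) (s, (u + 1) / 2) = if (u + 1) / 2 ≤ 1 / 2 then
      S0 s (W n (s, 2 * ((u + 1) / 2))) else S1 s (W n (s, 2 * ((u + 1) / 2) - 1)) := rfl
  rw [e]
  rcases hu.eq_or_lt with h | h
  · subst h
    rw [if_pos (by norm_num), W_right n _ _ (by norm_num), W_left n _ _ (by norm_num)]
    have := pq_eq s
    simp only [S0, S1]
    ext <;> simp <;> linarith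
  · rw [if_neg (by linarith)]
    congr 3
    ring

theorem X_half0 (s u : ℝ) (hu : u ≤ 1) : X (s, u / 2) = pp s * X (s, u) := by
  have h1 : Tendsto (fun n => (W (n + 1) (s, u / 2)).1) atTop (𝓝 (X (s, u / 2))) :=
    (X_tendsto (s, u / 2)).comp (tendsto_add_atTop_nat 1)
  simp_rw [fun n => W_half0 n s u hu, S0] at h1
  exact tendsto_nhds_unique h1 ((X_tendsto (s, u)).const_mul _)

theorem Y_half0 (s u : ℝ) (hu : u ≤ 1) :
    Y (s, u / 2) = (1 - mm s) - pp s * X (s, u) + mm s * Y (s, u) := by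
  have h1 : Tendsto (fun n => (W (n + 1) (s, u / 2)).2) atTop (𝓝 (Y (s, u / 2))) :=
    (Y_tendsto (s, u / 2)).comp (tendsto_add_atTop_nat 1)
  simp_rw [fun n => W_half0 n s u hu, S0] at h1
  exact tendsto_nhds_unique h1 (((X_tendsto (s, u)).const_mul _).const_sub _ |>.add
    ((Y_tendsto (s, u)).const_mul _))

theorem X_half1 (s u : ℝ) (hu : 0 ≤ u) :
    X (s, (u + 1) / 2) = (1 - mm s) + mm s * X (s, u) - qq s * Y (s, u) := by
  have h1 : Tendsto (fun n => (W (n + 1) (s, (u + 1) / 2)).1) atTop (𝓝 (X (s, (u + 1) / 2))) :=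
    (X_tendsto (s, (u + 1) / 2)).comp (tendsto_add_atTop_nat 1)
  simp_rw [fun n => W_half1 n s u hu, S1] at h1
  exact tendsto_nhds_unique h1 ((((X_tendsto (s, u)).const_mul _).const_add _).sub
    ((Y_tendsto (s, u)).const_mul _))

theorem Y_half1 (s u : ℝ) (hu : 0 ≤ u) : Y (s, (u + 1) / 2) = qq s * Y (s, u) := by
  have h1 : Tendsto (fun n => (W (n + 1) (s, (u + 1) / 2)).2) atTop (𝓝 (Y (s, (u + 1) / 2))) :=
    (Y_tendsto (s, (u + 1) / 2)).comp (tendsto_add_atTop_nat 1)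
  simp_rw [fun n => W_half1 n s u hu, S1] at h1
  exact tendsto_nhds_unique h1 ((Y_tendsto (s, u)).const_mul _)

/-- trapping region for `s = -1/2` -/
theorem trap1 (n : ℕ) (u : ℝ) : 0 ≤ (W n (-1 / 2, u)).1 ∧ -1 ≤ (W n (-1 / 2, u)).2 ∧
    (W n (-1 / 2, u)).1 ≤ 1 ∧ (W n (-1 / 2, u)).2 ≤ 1 ∧
    (W n (-1 / 2, u)).1 + (W n (-1 / 2, u)).2 ≤ 1 := by
  have hc : cs (-1 / 2) = -1 / 2 := cs_eq (by norm_num) (by norm_num)
  have hp : pp (-1 / 2) = 2 / 5 := by unfold pp; rw [hc]; norm_num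
  have hq : qq (-1 / 2) = -1 / 5 := by unfold qq; rw [hc]; norm_num
  have hm : mm (-1 / 2) = 4 / 5 := by unfold mm; rw [hc]; norm_num
  induction n generalizing u with
  | zero =>
    simp only [W]
    have h1 : (0 : ℝ) ≤ max 0 (min u 1) := le_max_left _ _
    have h2 : max 0 (min u 1) ≤ (1 : ℝ) := max_le (by norm_num) (min_le_right _ _)
    refine ⟨h1, ?_, ?_, ?_, ?_⟩ <;> linarith
  | succ n ih =>
    have e : W (n + 1) (-1 / 2, u) = if u ≤ 1 / 2 then S0 (-1 / 2) (W n (-1 / 2, 2 * u))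
      else S1 (-1 / 2) (W n (-1 / 2, 2 * u - 1)) := rfl
    rw [e]
    split_ifs
    · obtain ⟨a1, a2, a3, a4, a5⟩ := ih (2 * u)
      simp only [S0, hp, hm]
      refine ⟨?_, ?_, ?_, ?_, ?_⟩ <;> linarith
    · obtain ⟨a1, a2, a3, a4, a5⟩ := ih (2 * u - 1)
      simp only [S1, hq, hm]
      refine ⟨?_, ?_, ?_, ?_, ?_⟩ <;> linarith

/-- trapping region for `s = -1/5` -/
theorem trap2 (n : ℕ) (u : ℝ) : 0 ≤ (W n (-1 / 5, u)).1 ∧ -1 / 4 ≤ (W n (-1 / 5, u)).2 ∧
    (W n (-1 / 5, u)).1 ≤ 1 ∧ (W n (-1 / 5, u)).2 ≤ 1 ∧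
    (W n (-1 / 5, u)).1 + (W n (-1 / 5, u)).2 ≤ 1 ∧
    27 / 52 ≤ (W n (-1 / 5, u)).1 + (W n (-1 / 5, u)).2 := by
  have hc : cs (-1 / 5) = -1 / 5 := cs_eq (by norm_num) (by norm_num)
  have hp : pp (-1 / 5) = 10 / 13 := by unfold pp; rw [hc]; norm_num
  have hq : qq (-1 / 5) = -2 / 13 := by unfold qq; rw [hc]; norm_num
  have hm : mm (-1 / 5) = 5 / 13 := by unfold mm; rw [hc]; norm_num
  induction n generalizing u with
  | zero =>
    simp only [W]
    have h1 : (0 : ℝ) ≤ max 0 (min u 1) := le_max_left _ _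
    have h2 : max 0 (min u 1) ≤ (1 : ℝ) := max_le (by norm_num) (min_le_right _ _)
    refine ⟨h1, ?_, ?_, ?_, ?_, ?_⟩ <;> linarith
  | succ n ih =>
    have e : W (n + 1) (-1 / 5, u) = if u ≤ 1 / 2 then S0 (-1 / 5) (W n (-1 / 5, 2 * u))
      else S1 (-1 / 5) (W n (-1 / 5, 2 * u - 1)) := rfl
    rw [e]
    split_ifs
    · obtain ⟨a1, a2, a3, a4, a5, a6⟩ := ih (2 * u)
      simp only [S0, hp, hm]
      refine ⟨?_, ?_, ?_, ?_, ?_, ?_⟩ <;> linarith
    · obtain ⟨a1, a2, a3, a4, a5, a6⟩ := ih (2 * u - 1)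
      simp only [S1, hq, hm]
      refine ⟨?_, ?_, ?_, ?_, ?_, ?_⟩ <;> linarith

theorem upper_half (u : ℝ) : X (-1 / 2, u) + Y (-1 / 2, u) ≤ 1 :=
  le_of_tendsto' ((X_tendsto (-1 / 2, u)).add (Y_tendsto (-1 / 2, u)))
    (fun n => (trap1 n u).2.2.2.2)

theorem lower_fifth (u : ℝ) : 27 / 52 ≤ X (-1 / 5, u) + Y (-1 / 5, u) :=
  ge_of_tendsto' ((X_tendsto (-1 / 5, u)).add (Y_tendsto (-1 / 5, u)))
    (fun n => (trap2 n u).2.2.2.2.2)

end Pool.Agent.Helper577
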