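import Mathlib

namespace Pool.Agent.Helper577

open Complex

/-- a continuous real function on an interval whose sine never vanishes stays in one
interval of length pi -/
theorem stay_sin {f : ℝ → ℝ} (hf : Continuous f) {a b : ℝ} (hab : a ≤ b)
    (h : ∀ x ∈ Set.Icc a b, Real.sin (f x) ≠ 0) {k : ℤ}
    (ha : f a ∈ Set.Ioo (k * Real.pi) ((k + 1) * Real.pi)) :
    f b ∈ Set.Ioo (k * Real.pi) ((k + 1) * Real.pi) := by
  by_contra hb
  rw [Set.mem_Ioo, not_and_or, not_lt, not_lt] at hb
  rcases hb with hb | hb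
  · have : (k : ℝ) * Real.pi ∈ Set.Icc (f b) (f a) := ⟨hb, ha.1.le⟩
    obtain ⟨x, hx, hfx⟩ := intermediate_value_Icc' hab hf.continuousOn this
    exact h x hx (by rw [hfx]; exact Real.sin_int_mul_pi k)
  · have : ((k + 1 : ℤ) : ℝ) * Real.pi ∈ Set.Icc (f a) (f b) := by
      push_cast
      exact ⟨ha.2.le, hb⟩
    obtain ⟨x, hx, hfx⟩ := intermediate_value_Icc hab hf.continuousOn this
    exact h x hx (by rw [hfx]; exact Real.sin_int_mul_pi _)

theorem miranda {F : ℝ × ℝ → ℂ} (hF : Continuous F) {a b c d : ℝ} (hab : a ≤ b) (hcd : c ≤ d)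
    (h1 : ∀ s ∈ Set.Icc a b, (F (s, c)).re < 0) (h2 : ∀ s ∈ Set.Icc a b, 0 < (F (s, d)).re)
    (h3 : ∀ u ∈ Set.Icc c d, (F (a, u)).im < 0) (h4 : ∀ u ∈ Set.Icc c d, 0 < (F (b, u)).im) :
    ∃ s ∈ Set.Icc a b, ∃ u ∈ Set.Icc c d, F (s, u) = 0 := by
  by_contra hcon
  push Not at hcon
  -- extend by clamping
  let π₁ : ℝ → ℝ := fun s => max a (min s b)
  let π₂ : ℝ → ℝ := fun u => max c (min u d)
  have hπ₁ : ∀ s, π₁ s ∈ Set.Icc a b := fun s =>
    ⟨le_max_left _ _, max_le hab (min_le_right _ _)⟩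
  have hπ₂ : ∀ s, π₂ s ∈ Set.Icc c d := fun s =>
    ⟨le_max_left _ _, max_le hcd (min_le_right _ _)⟩
  have e₁ : ∀ s ∈ Set.Icc a b, π₁ s = s := fun s hs => by
    simp only [π₁]; rw [min_eq_left hs.2, max_eq_right hs.1]
  have e₂ : ∀ s ∈ Set.Icc c d, π₂ s = s := fun s hs => by
    simp only [π₂]; rw [min_eq_left hs.2, max_eq_right hs.1]
  have hc₁ : Continuous π₁ := by fun_prop
  have hc₂ : Continuous π₂ := by fun_prop
  let Fc : C(ℝ × ℝ, ℂ) := ⟨fun p => F (π₁ p.1, π₂ p.2), by fun_prop⟩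
  have hne : ∀ p, Fc p ∈ ({0}ᶜ : Set ℂ) := fun p => by
    simp only [Set.mem_compl_iff, Set.mem_singleton_iff]
    exact hcon _ (hπ₁ _) _ (hπ₂ _)
  -- a lift whose imaginary part at the corner lies in the third quadrant
  obtain ⟨G, ⟨hG0, hG⟩, -⟩ := Complex.isCoveringMapOn_exp.existsUnique_continuousMap_lifts Fc
    (a₀ := (a, c)) (e₀ := Complex.log (Fc (a, c))) (Complex.exp_log (hne _)) hne
  have hGe : ∀ p, Complex.exp (G p) = Fc p := fun p => congrFun hG p
  let θ : ℝ → ℝ → ℝ := fun s u => (G (s, u)).im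
  have hθ : Continuous (fun p : ℝ × ℝ => θ p.1 p.2) := by
    have := G.continuous
    simp only [θ]
    fun_prop
  have re_eq : ∀ s u, (Fc (s, u)).re = Real.exp (G (s, u)).re * Real.cos (θ s u) := by
    intro s u; rw [← hGe, Complex.exp_re]
  have im_eq : ∀ s u, (Fc (s, u)).im = Real.exp (G (s, u)).re * Real.sin (θ s u) := by
    intro s u; rw [← hGe, Complex.exp_im]
  have c1 : ∀ s ∈ Set.Icc a b, Real.cos (θ s c) < 0 := by
    intro s hs
    have h := h1 s hs
    have e : (Fc (s, c)).re = (F (s, c)).re := by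
      change (F (π₁ s, π₂ c)).re = _
      rw [e₁ s hs, e₂ c ⟨le_refl _, hcd⟩]
    rw [← e, re_eq] at h
    by_contra hh
    push Not at hh
    have := mul_nonneg (Real.exp_pos (G (s, c)).re).le hh
    linarith
  have c2 : ∀ s ∈ Set.Icc a b, 0 < Real.cos (θ s d) := by
    intro s hs
    have h := h2 s hs
    have e : (Fc (s, d)).re = (F (s, d)).re := by
      change (F (π₁ s, π₂ d)).re = _
      rw [e₁ s hs, e₂ d ⟨hcd, le_refl _⟩]
    rw [← e, re_eq] at h
    exact (pos_iff_pos_of_mul_pos h).1 (Real.exp_pos _)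
  have c3 : ∀ u ∈ Set.Icc c d, Real.sin (θ a u) < 0 := by
    intro s hs
    have h := h3 s hs
    have e : (Fc (a, s)).im = (F (a, s)).im := by
      change (F (π₁ a, π₂ s)).im = _
      rw [e₂ s hs, e₁ a ⟨le_refl _, hab⟩]
    rw [← e, im_eq] at h
    by_contra hh
    push Not at hh
    have := mul_nonneg (Real.exp_pos (G (a, s)).re).le hh
    linarith
  have c4 : ∀ u ∈ Set.Icc c d, 0 < Real.sin (θ b u) := by
    intro s hs
    have h := h4 s hs
    have e : (Fc (b, s)).im = (F (b, s)).im := by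
      change (F (π₁ b, π₂ s)).im = _
      rw [e₂ s hs, e₁ b ⟨hab, le_refl _⟩]
    rw [← e, im_eq] at h
    exact (pos_iff_pos_of_mul_pos h).1 (Real.exp_pos _)
  have hpi := Real.pi_pos
  have i1 : a ∈ Set.Icc a b := ⟨le_refl _, hab⟩
  have i2 : b ∈ Set.Icc a b := ⟨hab, le_refl _⟩
  have i3 : c ∈ Set.Icc c d := ⟨le_refl _, hcd⟩
  have i4 : d ∈ Set.Icc c d := ⟨hcd, le_refl _⟩
  -- the corner (a, c)
  have h00 : θ a c = Complex.arg (Fc (a, c)) := by
    simp only [θ]; rw [hG0, Complex.log_im]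
  have l00 : -Real.pi < θ a c := by rw [h00]; exact Complex.neg_pi_lt_arg _
  have u00 : θ a c ≤ Real.pi := by rw [h00]; exact Complex.arg_le_pi _
  have s00 := c3 c i3
  have k00 := c1 a i1
  have n00 : θ a c < 0 := by
    by_contra hh
    push Not at hh
    linarith [Real.sin_nonneg_of_nonneg_of_le_pi hh u00]
  have m00 : θ a c < -(Real.pi / 2) := by
    by_contra hh
    push Not at hh
    linarith [Real.cos_nonneg_of_neg_pi_div_two_le_of_le hh (by linarith)]
  -- path A
  have A1 := stay_sin (f := fun u => θ a u) (by fun_prop) hcd (fun u hu => (c3 u hu).ne)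
    (k := -1) (by push_cast; constructor <;> linarith)
  push_cast at A1
  have A2 : -(Real.pi / 2) < θ a d := by
    by_contra hh
    push Not at hh
    have h5 := c2 a i1
    have h6 : Real.cos (θ a d) = - Real.cos (θ a d + Real.pi) := by
      rw [Real.cos_add_pi]; ring
    have h7 := Real.cos_nonneg_of_neg_pi_div_two_le_of_le (x := θ a d + Real.pi)
      (by linarith [A1.1]) (by linarith)
    linarith
  have A3 := stay_sin (f := fun s => θ s d + Real.pi / 2) (by fun_prop) hab (fun s hs => by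
      rw [Real.sin_add_pi_div_two]; exact (c2 s hs).ne')
    (k := 0) (by push_cast; constructor <;> linarith [A1.2])
  push_cast at A3
  have A4 : 0 < θ b d := by
    by_contra hh
    push Not at hh
    linarith [Real.sin_nonpos_of_nonpos_of_neg_pi_le hh (by linarith [A3.1]), c4 d i4]
  -- path B
  have B1 := stay_sin (f := fun s => θ s c + Real.pi / 2) (by fun_prop) hab (fun s hs => by
      rw [Real.sin_add_pi_div_two]; exact (c1 s hs).ne)
    (k := -1) (by push_cast; constructor <;> linarith)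
  push_cast at B1
  have B2 : θ b c < -Real.pi := by
    by_contra hh
    push Not at hh
    linarith [Real.sin_nonpos_of_nonpos_of_neg_pi_le (x := θ b c) (by linarith [B1.2]) hh, c4 c i3]
  have B3 := stay_sin (f := fun u => θ b u) (by fun_prop) hcd (fun u hu => (c4 u hu).ne')
    (k := -2) (by push_cast; constructor <;> linarith [B1.1])
  push_cast at B3
  linarith [B3.2]

end Pool.Agent.Helper577
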