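import Mathlib
import Pool.Agent.Helper577.Miranda
import Pool.Agent.Helper577.Curve

namespace Pool.Agent.Helper577

open Complex

noncomputable def gx (s : ℝ) : ℝ := (1 - cs s) * (1 + cs s ^ 2) / 2
noncomputable def gy (s : ℝ) : ℝ := 1 + (1 + cs s ^ 2) ^ 2 / (4 * cs s)

theorem cs_ne (s : ℝ) : cs s ≠ 0 := by have := cs_mem s; intro h; linarith

theorem continuous_gx : Continuous gx := by
  unfold gx; have := continuous_cs; fun_prop
theorem continuous_gy : Continuous gy := by
  unfold gy
  have := continuous_cs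
  refine continuous_const.add (Continuous.div (by fun_prop) (by fun_prop) fun s => ?_)
  have := cs_ne s
  simpa using this

theorem g_diff (s : ℝ) : -1 < gx s - gy s ∧ gx s - gy s < 1 := by
  unfold gx gy
  obtain ⟨h1, h2⟩ := cs_mem s
  set c := cs s with hc
  have hc0 : c < 0 := by linarith
  have hne : c ≠ 0 := hc0.ne
  have key : (1 + c ^ 2) ^ 2 / (4 * c) = -((1 + c ^ 2) ^ 2 / (4 * (-c))) := by
    field_simp
  rw [key]
  constructor
  · have : 0 < (1 + c ^ 2) ^ 2 / (4 * (-c)) := by
      apply div_pos (by positivity); linarith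
    have : 0 < (1 - c) * (1 + c ^ 2) / 2 := by
      apply div_pos (mul_pos (by linarith) (by positivity)) (by norm_num)
    linarith
  · have : (1 + c ^ 2) ^ 2 / (4 * (-c)) < 2 - (1 - c) * (1 + c ^ 2) / 2 := by
      rw [div_lt_iff₀ (by linarith)]
      nlinarith [mul_nonneg (sub_nonneg.2 h1) (sub_nonneg.2 h2), sq_nonneg c,
        mul_nonneg (sq_nonneg c) (mul_nonneg (sub_nonneg.2 h1) (sub_nonneg.2 h2)),
        mul_nonneg (neg_nonneg.2 hc0.le) (mul_nonneg (sub_nonneg.2 h1) (sub_nonneg.2 h2))]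
    linarith

/-- the crossing -/
theorem cross : ∃ s ∈ Set.Icc (-1 / 2 : ℝ) (-1 / 5), ∃ u ∈ Set.Icc (0 : ℝ) 1,
    X (s, u) = gx s ∧ Y (s, u) = gy s := by
  have hX := X_continuous
  have hY := Y_continuous
  have hgx := continuous_gx
  have hgy := continuous_gy
  obtain ⟨s, hs, u, hu, h⟩ := miranda (F := fun z : ℝ × ℝ =>
      (((X z - Y z) - (gx z.1 - gy z.1) : ℝ) : ℂ) + (((X z + Y z) - (gx z.1 + gy z.1) : ℝ) : ℂ) * I)
    (by fun_prop) (a := -1 / 2) (b := -1 / 5) (c := 0) (d := 1) (by norm_num) (by norm_num)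
    (by
      intro s _
      have := g_diff s
      simp only [add_re, ofReal_re, mul_re, I_re, mul_zero, ofReal_im, I_im, mul_one, sub_self,
        add_zero]
      rw [X_left s 0 le_rfl, Y_left s 0 le_rfl]
      linarith)
    (by
      intro s _
      have := g_diff s
      simp only [add_re, ofReal_re, mul_re, I_re, mul_zero, ofReal_im, I_im, mul_one, sub_self,
        add_zero]
      rw [X_right s 1 le_rfl, Y_right s 1 le_rfl]
      linarith)
    (by
      intro u _
      have h1 := upper_half u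
      have hc : cs (-1 / 2) = -1 / 2 := cs_eq (by norm_num) (by norm_num)
      simp only [add_im, ofReal_im, mul_im, ofReal_re, I_im, mul_one, I_re, mul_zero, add_zero,
        zero_add]
      have e1 : gx (-1 / 2) = 15 / 16 := by unfold gx; rw [hc]; norm_num
      have e2 : gy (-1 / 2) = 7 / 32 := by unfold gy; rw [hc]; norm_num
      rw [e1, e2]
      linarith)
    (by
      intro u _
      have h1 := lower_fifth u
      have hc : cs (-1 / 5) = -1 / 5 := cs_eq (by norm_num) (by norm_num)
      simp only [add_im, ofReal_im, mul_im, ofReal_re, I_im, mul_one, I_re, mul_zero, add_zero,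
        zero_add]
      have e1 : gx (-1 / 5) = 78 / 125 := by unfold gx; rw [hc]; norm_num
      have e2 : gy (-1 / 5) = -44 / 125 := by unfold gy; rw [hc]; norm_num
      rw [e1, e2]
      linarith)
  refine ⟨s, hs, u, hu, ?_⟩
  have hre := congrArg Complex.re h
  have him := congrArg Complex.im h
  simp only [add_re, ofReal_re, mul_re, I_re, mul_zero, ofReal_im, I_im, mul_one, sub_self,
    add_zero, add_im, mul_im, zero_add, Complex.zero_re, Complex.zero_im] at hre him
  constructor <;> linarith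

/-- at the offset `1/2 + u/4` the curve passes through the point `(1+s, 0)` -/
theorem cross' : ∃ s ∈ Set.Icc (-1 / 2 : ℝ) (-1 / 5), ∃ t ∈ Set.Icc (1 / 2 : ℝ) (3 / 4),
    X (s, t) = 1 + s ∧ Y (s, t) = 0 := by
  obtain ⟨s, hs, u, hu, hx, hy⟩ := cross
  have hcs : cs s = s := cs_eq hs.1 hs.2
  have hs0 : s ≠ 0 := by intro h; rw [h] at hs; norm_num at hs
  have hd := (den_pos s).ne'
  have hp : pp s = (1 + s) / (1 + s ^ 2) := by unfold pp; rw [hcs]
  have hq : qq s = s * (1 + s) / (1 + s ^ 2) := by unfold qq; rw [hcs]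
  have hm : mm s = -2 * s / (1 + s ^ 2) := by unfold mm; rw [hcs]
  have hgx : gx s = (1 - s) * (1 + s ^ 2) / 2 := by unfold gx; rw [hcs]
  have hgy : gy s = 1 + (1 + s ^ 2) ^ 2 / (4 * s) := by unfold gy; rw [hcs]
  have x1 := X_half0 s u hu.2
  have y1 := Y_half0 s u hu.2
  have x2 := X_half1 s (u / 2) (by linarith [hu.1])
  have y2 := Y_half1 s (u / 2) (by linarith [hu.1])
  rw [hx, hgx, hp] at x1
  rw [hx, hy, hgx, hgy, hp, hm] at y1
  have y1' : Y (s, u / 2) = 0 := by
    rw [y1]; field_simp; ring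
  have x1' : X (s, u / 2) = (1 - s ^ 2) / 2 := by
    rw [x1]; field_simp; ring
  refine ⟨s, hs, (u / 2 + 1) / 2, ⟨by linarith [hu.1], by linarith [hu.2]⟩, ?_, ?_⟩
  · rw [x2, x1', y1', hm]; field_simp; ring
  · rw [y2, y1', mul_zero]

end Pool.Agent.Helper577
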