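import Mathlib

namespace Pool.Agent.Helper577

open MeasureTheory
open scoped ComplexConjugate

/-- The function `x ↦ 2^{j/2} φ(2^j x - k)`. -/
noncomputable def dil (φ : ℝ → ℂ) (j k : ℤ) (x : ℝ) : ℂ :=
  (((2 : ℝ) ^ ((j : ℝ) / 2) : ℝ) : ℂ) * φ ((2 : ℝ) ^ j * x - k)

/-- `V_j`: the closed linear span in `L²(ℝ)` of the functions `2^{j/2} φ(2^j · - k)`, `k ∈ ℤ`. -/
noncomputable def V (φ : ℝ → ℂ) (j : ℤ) : Submodule ℂ (Lp ℂ 2 (volume : Measure ℝ)) :=
  (Submodule.span ℂ {g : Lp ℂ 2 (volume : Measure ℝ) |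
    ∃ k : ℤ, (g : ℝ → ℂ) =ᵐ[volume] dil φ j k}).topologicalClosure

/-- Orthogonal scaling function: square integrable, orthonormal integer translates, a two-scale
equation (here with finitely many coefficients and valid at every point), and the closed spans
`V_j` are nested with dense union and trivial intersection. -/
structure IsOrthogonalScalingFunction (φ : ℝ → ℂ) : Prop where
  memLp : MemLp φ 2 (volume : Measure ℝ)
  orthonormal : ∀ k l : ℤ, ∫ x, conj (φ (x - k)) * φ (x - l) = if k = l then 1 else 0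
  twoScale : ∃ d : ℤ →₀ ℂ, ∀ t : ℝ, φ (t / 2) = d.sum fun k c => c * φ (t - k)
  nested : ∀ j : ℤ, V φ j ≤ V φ (j + 1)
  dense : (⨆ j : ℤ, V φ j).topologicalClosure = ⊤
  inter : (⨅ j : ℤ, V φ j) = ⊥

/-- `φ` is cardinal with offset `t₀` and index `P`. -/
def IsCardinal (φ : ℝ → ℂ) (t₀ : ℝ) (P : ℤ) : Prop :=
  ∀ k : ℤ, φ (t₀ + k) = if k = P then 1 else 0

end Pool.Agent.Helper577
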