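import Mathlib
import Pool.Agent.Helper577.ScalingDefs

namespace Pool.Agent.Helper577

open MeasureTheory Filter Topology
open scoped ComplexConjugate ENNReal

structure Good (φ : ℝ → ℂ) (d : Fin 4 → ℂ) : Prop where
  cont : Continuous φ
  h0 : ∀ t ≤ 0, φ t = 0
  h3 : ∀ t, 3 ≤ t → φ t = 0
  ref : ∀ t, φ (t / 2) = ∑ i : Fin 4, d i * φ (t - (i : ℕ))
  sum : ∀ u, 0 ≤ u → u ≤ 1 → φ u + φ (u + 1) + φ (u + 2) = 1
  ortho : ∀ k l : ℤ, ∫ x, conj (φ (x - k)) * φ (x - l) = if k = l then 1 else 0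

variable {φ : ℝ → ℂ} {d : Fin 4 → ℂ}

namespace Good
variable (G : Good φ d)
include G

theorem supp : HasCompactSupport φ := by
  apply HasCompactSupport.intro (isCompact_Icc (a := (0 : ℝ)) (b := 3))
  intro t ht
  simp only [Set.mem_Icc, not_and_or, not_le] at ht
  rcases ht with h | h
  · exact G.h0 t h.le
  · exact G.h3 t h.le

theorem bound : ∃ C : ℝ, 0 ≤ C ∧ ∀ t, ‖φ t‖ ≤ C := by
  obtain ⟨C, hC⟩ := G.supp.exists_bound_of_continuous G.cont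
  exact ⟨max C 0, le_max_right _ _, fun t => (hC t).trans (le_max_left _ _)⟩

theorem mem_of_ne {y : ℝ} {k : ℤ} (h : φ (y - k) ≠ 0) : k ∈ Finset.Icc (⌊y⌋ - 3) ⌊y⌋ := by
  have h1 : 0 < y - k := by
    by_contra hh; push Not at hh; exact h (G.h0 _ hh)
  have h2 : y - k < 3 := by
    by_contra hh; push Not at hh; exact h (G.h3 _ hh)
  rw [Finset.mem_Icc]
  constructor
  · have : ⌊y⌋ < k + 3 := by
      rw [Int.floor_lt]; push_cast; linarith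
    omega
  · rw [Int.le_floor]; linarith

theorem sum_T (y : ℝ) : ∑ k ∈ Finset.Icc (⌊y⌋ - 3) ⌊y⌋, φ (y - k) = 1 := by
  have e : Finset.Icc (⌊y⌋ - 3) ⌊y⌋ = {⌊y⌋ - 3, ⌊y⌋ - 2, ⌊y⌋ - 1, ⌊y⌋} := by
    ext k
    simp only [Finset.mem_Icc, Finset.mem_insert, Finset.mem_singleton]
    omega
  rw [e, Finset.sum_insert (by simp), Finset.sum_insert (by simp), Finset.sum_insert (by simp),
    Finset.sum_singleton]
  have h := G.sum (Int.fract y) (Int.fract_nonneg y) (Int.fract_lt_one y).le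
  have e0 : y - (⌊y⌋ : ℝ) = Int.fract y := rfl
  have e1 : y - ((⌊y⌋ - 1 : ℤ) : ℝ) = Int.fract y + 1 := by rw [← e0]; push_cast; ring
  have e2 : y - ((⌊y⌋ - 2 : ℤ) : ℝ) = Int.fract y + 2 := by rw [← e0]; push_cast; ring
  have e3 : y - ((⌊y⌋ - 3 : ℤ) : ℝ) = Int.fract y + 3 := by rw [← e0]; push_cast; ring
  rw [e0, e1, e2, e3, G.h3 _ (by linarith [Int.fract_nonneg y])]
  linear_combination h

theorem sum_S (y : ℝ) (S : Finset ℤ) (hS : Finset.Icc (⌊y⌋ - 3) ⌊y⌋ ⊆ S) :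
    ∑ k ∈ S, φ (y - k) = 1 := by
  rw [← G.sum_T y]
  symm
  apply Finset.sum_subset hS
  intro k _ hk
  by_contra h
  exact hk (G.mem_of_ne h)

theorem norm_sum_le {C : ℝ} (hC : ∀ t, ‖φ t‖ ≤ C) (y : ℝ) (S : Finset ℤ) :
    ∑ k ∈ S, ‖φ (y - k)‖ ≤ 4 * C := by
  calc ∑ k ∈ S, ‖φ (y - k)‖ ≤ ∑ k ∈ S ∪ Finset.Icc (⌊y⌋ - 3) ⌊y⌋, ‖φ (y - k)‖ :=
        Finset.sum_le_sum_of_subset_of_nonneg Finset.subset_union_left (fun _ _ _ => norm_nonneg _)
    _ = ∑ k ∈ Finset.Icc (⌊y⌋ - 3) ⌊y⌋, ‖φ (y - k)‖ := by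
        symm
        apply Finset.sum_subset Finset.subset_union_right
        intro k _ hk
        by_contra h
        exact hk (G.mem_of_ne (fun h' => h (by rw [h', norm_zero])))
    _ ≤ ∑ k ∈ Finset.Icc (⌊y⌋ - 3) ⌊y⌋, C := Finset.sum_le_sum (fun _ _ => hC _)
    _ = 4 * C := by
        rw [Finset.sum_const, Int.card_Icc]
        have : (⌊y⌋ + 1 - (⌊y⌋ - 3)).toNat = 4 := by omega
        rw [this]; simp

theorem dil_continuous (j k : ℤ) : Continuous (dil φ j k) := by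
  have := G.cont
  unfold dil
  fun_prop

theorem dil_supp (j k : ℤ) : HasCompactSupport (dil φ j k) := by
  have h2 : (0 : ℝ) < 2 ^ j := by positivity
  apply HasCompactSupport.intro (isCompact_Icc (a := ((2 : ℝ) ^ j)⁻¹ * k)
    (b := ((2 : ℝ) ^ j)⁻¹ * (k + 3)))
  intro t ht
  simp only [Set.mem_Icc, not_and_or, not_le] at ht
  unfold dil
  rcases ht with h | h
  · rw [G.h0, mul_zero]
    rw [lt_inv_mul_iff₀ h2] at h
    linarith
  · rw [G.h3, mul_zero]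
    rw [inv_mul_lt_iff₀ h2] at h
    linarith

theorem dil_memLp (j k : ℤ) : MemLp (dil φ j k) 2 (volume : Measure ℝ) :=
  (G.dil_continuous j k).memLp_of_hasCompactSupport (G.dil_supp j k)

end Good

/-- the element of `L²` -/
noncomputable def el (G : Good φ d) (j k : ℤ) : Lp ℂ 2 (volume : Measure ℝ) :=
  (G.dil_memLp j k).toLp

theorem el_coe (G : Good φ d) (j k : ℤ) : (el G j k : ℝ → ℂ) =ᵐ[volume] dil φ j k :=
  MemLp.coeFn_toLp _

theorem gen_iff (G : Good φ d) (j : ℤ) (g : Lp ℂ 2 (volume : Measure ℝ)) :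
    (∃ k : ℤ, (g : ℝ → ℂ) =ᵐ[volume] dil φ j k) ↔ g ∈ Set.range (el G j) := by
  constructor
  · rintro ⟨k, hk⟩
    exact ⟨k, Lp.ext ((el_coe G j k).trans hk.symm)⟩
  · rintro ⟨k, rfl⟩
    exact ⟨k, el_coe G j k⟩

theorem V_eq (G : Good φ d) (j : ℤ) :
    V φ j = (Submodule.span ℂ (Set.range (el G j))).topologicalClosure := by
  unfold V
  congr 2
  ext g
  exact gen_iff G j g

theorem el_mem (G : Good φ d) (j k : ℤ) : el G j k ∈ V φ j := by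
  rw [V_eq G]
  exact Submodule.le_topologicalClosure _ (Submodule.subset_span ⟨k, rfl⟩)

theorem dil_refine (G : Good φ d) (j k : ℤ) (x : ℝ) :
    dil φ j k x = ∑ i : Fin 4, (d i / ((Real.sqrt 2 : ℝ) : ℂ)) * dil φ (j + 1) (2 * k + (i : ℕ)) x := by
  have h := G.ref (2 * ((2 : ℝ) ^ j * x - k))
  rw [show 2 * ((2 : ℝ) ^ j * x - k) / 2 = (2 : ℝ) ^ j * x - k by ring] at h
  unfold dil
  rw [h, Finset.mul_sum]
  apply Finset.sum_congr rfl
  intro i _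
  have e1 : (2 : ℝ) ^ (j + 1) * x - ((2 * k + ((i : ℕ) : ℤ) : ℤ) : ℝ)
      = 2 * ((2 : ℝ) ^ j * x - k) - ((i : ℕ) : ℝ) := by
    rw [zpow_add_one₀ (by norm_num)]; push_cast; ring
  rw [e1]
  have e2 : (2 : ℝ) ^ (((j + 1 : ℤ) : ℝ) / 2) = (2 : ℝ) ^ ((j : ℝ) / 2) * Real.sqrt 2 := by
    rw [Real.sqrt_eq_rpow, ← Real.rpow_add (by norm_num)]
    congr 1
    push_cast
    ring
  rw [e2]
  have h2 : ((Real.sqrt 2 : ℝ) : ℂ) ≠ 0 := by
    rw [Complex.ofReal_ne_zero]; positivity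
  push_cast
  field_simp

theorem el_refine (G : Good φ d) (j k : ℤ) :
    el G j k = ∑ i : Fin 4, (d i / ((Real.sqrt 2 : ℝ) : ℂ)) • el G (j + 1) (2 * k + (i : ℕ)) := by
  apply Lp.ext
  refine (el_coe G j k).trans ?_
  rw [Fin.sum_univ_four]
  have hadd := fun (f g : Lp ℂ 2 (volume : Measure ℝ)) => Lp.coeFn_add f g
  have hsm := fun (c : ℂ) (g : Lp ℂ 2 (volume : Measure ℝ)) => Lp.coeFn_smul c g
  have key : ∀ (f0 f1 f2 f3 : Lp ℂ 2 (volume : Measure ℝ)) (c0 c1 c2 c3 : ℂ)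
      (F0 F1 F2 F3 : ℝ → ℂ), (f0 : ℝ → ℂ) =ᵐ[volume] F0 → (f1 : ℝ → ℂ) =ᵐ[volume] F1 →
      (f2 : ℝ → ℂ) =ᵐ[volume] F2 → (f3 : ℝ → ℂ) =ᵐ[volume] F3 →
      ((c0 • f0 + c1 • f1 + c2 • f2 + c3 • f3 : Lp ℂ 2 (volume : Measure ℝ)) : ℝ → ℂ)
        =ᵐ[volume] fun x => c0 * F0 x + c1 * F1 x + c2 * F2 x + c3 * F3 x := by
    intro f0 f1 f2 f3 c0 c1 c2 c3 F0 F1 F2 F3 h0 h1 h2 h3
    filter_upwards [hadd (c0 • f0 + c1 • f1 + c2 • f2) (c3 • f3), hadd (c0 • f0 + c1 • f1) (c2 • f2),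
      hadd (c0 • f0) (c1 • f1), hsm c0 f0, hsm c1 f1, hsm c2 f2, hsm c3 f3, h0, h1, h2, h3] with
      x a1 a2 a3 a4 a5 a6 a7 a8 a9 a10 a11
    simp only [a1, a2, a3, a4, a5, a6, a7, a8, a9, a10, a11, Pi.add_apply, Pi.smul_apply,
      smul_eq_mul]
  refine (Filter.EventuallyEq.symm ?_)
  refine (key _ _ _ _ _ _ _ _ _ _ _ _ (el_coe G _ _) (el_coe G _ _) (el_coe G _ _)
    (el_coe G _ _)).trans ?_
  apply Filter.Eventually.of_forall
  intro x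
  simp only
  rw [dil_refine G j k x, Fin.sum_univ_four]

theorem V_mono (G : Good φ d) (j : ℤ) : V φ j ≤ V φ (j + 1) := by
  rw [V_eq G j]
  apply Submodule.topologicalClosure_minimal
  · rw [Submodule.span_le]
    rintro _ ⟨k, rfl⟩
    rw [SetLike.mem_coe, el_refine G j k]
    exact Submodule.sum_mem _ (fun i _ => Submodule.smul_mem _ _ (el_mem G _ _))
  · unfold V
    exact Submodule.isClosed_topologicalClosure _

end Pool.Agent.Helper577
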