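import Mathlib
import Pool.Agent.Helper577.MRA

namespace Pool.Agent.Helper577

open MeasureTheory Filter Topology
open scoped ComplexConjugate ENNReal

variable {φ : ℝ → ℂ} {d : Fin 4 → ℂ}

theorem coe_sum (G : Good φ d) (j : ℤ) (S : Finset ℤ) (c : ℤ → ℂ) :
    ((∑ k ∈ S, c k • el G j k : Lp ℂ 2 (volume : Measure ℝ)) : ℝ → ℂ) =ᵐ[volume]
      fun x => ∑ k ∈ S, c k * dil φ j k x := by
  induction S using Finset.induction_on with
  | empty =>
    simp only [Finset.sum_empty]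
    exact Lp.coeFn_zero _ _ _
  | insert a S ha ih =>
    rw [Finset.sum_insert ha]
    filter_upwards [Lp.coeFn_add (c a • el G j a) (∑ k ∈ S, c k • el G j k),
      Lp.coeFn_smul (c a) (el G j a), el_coe G j a, ih] with x h1 h2 h3 h4
    rw [h1, Pi.add_apply, h2, Pi.smul_apply, h3, h4, smul_eq_mul, Finset.sum_insert ha]

/-- the quasi-interpolant is close to `g` -/
theorem approx (G : Good φ d) {g : ℝ → ℂ} (hg : Continuous g) (hgs : HasCompactSupport g)
    {ε : ℝ} (hε : 0 < ε) : ∃ (j : ℤ) (S : Finset ℤ) (c : ℤ → ℂ),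
      eLpNorm (fun x => g x - ∑ k ∈ S, c k * dil φ j k x) 2 volume ≤ ENNReal.ofReal ε := by
  obtain ⟨C, hC0, hC⟩ := G.bound
  obtain ⟨R, hR⟩ : ∃ R : ℝ, ∀ x, R < |x| → g x = 0 := by
    obtain ⟨R, hR⟩ := hgs.isCompact.isBounded.subset_closedBall (0 : ℝ)
    refine ⟨R, fun x hx => ?_⟩
    by_contra h
    have := hR (subset_tsupport _ h)
    rw [Metric.mem_closedBall, dist_zero_right, Real.norm_eq_abs] at this
    linarith
  have hR' : ∀ x, max R 0 < |x| → g x = 0 := fun x hx => hR x (lt_of_le_of_lt (le_max_left _ _) hx)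
  set R₁ := max R 0 with hR₁
  have hR₁0 : 0 ≤ R₁ := le_max_right _ _
  set K : Set ℝ := Set.Icc (-(R₁ + 3)) (R₁ + 3) with hK
  set B : ℝ≥0∞ := (volume.restrict K) Set.univ ^ (2 : ℝ≥0∞).toReal⁻¹ with hB
  have hBtop : B ≠ ⊤ := by
    rw [hB]
    apply ENNReal.rpow_ne_top_of_nonneg (by positivity)
    rw [Measure.restrict_apply_univ, hK, Real.volume_Icc]
    exact ENNReal.ofReal_ne_top
  set η : ℝ := ε / ((4 * C + 1) * (B.toReal + 1)) with hη
  have hη0 : 0 < η := by positivity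
  have huc := HasCompactSupport.uniformContinuous_of_continuous hgs hg
  rw [Metric.uniformContinuous_iff] at huc
  obtain ⟨δ, hδ, hδ'⟩ := huc η hη0
  obtain ⟨n, hn⟩ : ∃ n : ℕ, 3 * (1 / 2 : ℝ) ^ n < δ := by
    have : Tendsto (fun n : ℕ => 3 * (1 / 2 : ℝ) ^ n) atTop (𝓝 (3 * 0)) :=
      (tendsto_pow_atTop_nhds_zero_of_lt_one (by norm_num) (by norm_num)).const_mul 3
    rw [mul_zero] at this
    exact (this.eventually (gt_mem_nhds hδ)).exists
  have h2n : (1 : ℝ) ≤ 2 ^ n := one_le_pow₀ (by norm_num)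
  have h2n0 : (0 : ℝ) < 2 ^ n := by positivity
  set L : ℤ := ⌈(2 : ℝ) ^ n * (R₁ + 3)⌉ + 4 with hL
  refine ⟨n, Finset.Icc (-L) L, fun k => g (k / 2 ^ n) / (((2 : ℝ) ^ (((n : ℤ) : ℝ) / 2) : ℝ) : ℂ), ?_⟩
  have hH : ∀ x, ∑ k ∈ Finset.Icc (-L) L, g ((k : ℝ) / 2 ^ n) /
      (((2 : ℝ) ^ (((n : ℤ) : ℝ) / 2) : ℝ) : ℂ) * dil φ n k x
      = ∑ k ∈ Finset.Icc (-L) L, g ((k : ℝ) / 2 ^ n) * φ ((2 : ℝ) ^ n * x - k) := by
    intro x
    apply Finset.sum_congr rfl
    intro k _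
    unfold dil
    have : (((2 : ℝ) ^ (((n : ℤ) : ℝ) / 2) : ℝ) : ℂ) ≠ 0 := by
      rw [Complex.ofReal_ne_zero]; positivity
    rw [zpow_natCast]
    field_simp
  simp_rw [hH]
  -- pointwise bound
  have near : ∀ (x : ℝ) (k : ℤ), φ ((2 : ℝ) ^ n * x - k) ≠ 0 → |x - k / 2 ^ n| < 3 * (1 / 2) ^ n := by
    intro x k h
    have h1 : 0 < (2 : ℝ) ^ n * x - k := by
      by_contra hh; push Not at hh; exact h (G.h0 _ hh)
    have h2 : (2 : ℝ) ^ n * x - k < 3 := by
      by_contra hh; push Not at hh; exact h (G.h3 _ hh)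
    have e : x - k / 2 ^ n = ((2 : ℝ) ^ n * x - k) * (1 / 2) ^ n := by
      rw [one_div, inv_pow]; field_simp
    rw [e, abs_mul, abs_of_pos h1, abs_of_pos (by positivity)]
    exact mul_lt_mul_of_pos_right h2 (by positivity)
  have hout : ∀ x, x ∉ K → g x - ∑ k ∈ Finset.Icc (-L) L, g ((k : ℝ) / 2 ^ n) *
      φ ((2 : ℝ) ^ n * x - k) = 0 := by
    intro x hx
    have hx' : R₁ + 3 < |x| := by
      by_contra hh; push Not at hh; exact hx (abs_le.1 hh)
    rw [hR' x (by linarith), zero_sub, neg_eq_zero]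
    apply Finset.sum_eq_zero
    intro k _
    by_cases h : φ ((2 : ℝ) ^ n * x - k) = 0
    · rw [h, mul_zero]
    · have h1 := near x k h
      have h2 : (3 : ℝ) * (1 / 2) ^ n ≤ 3 := by
        have : ((1 : ℝ) / 2) ^ n ≤ 1 := pow_le_one₀ (by norm_num) (by norm_num)
        linarith
      have h3 : R₁ < |(k : ℝ) / 2 ^ n| := by
        have := abs_sub_abs_le_abs_sub x ((k : ℝ) / 2 ^ n)
        linarith
      rw [hR' _ h3, zero_mul]
  have hin : ∀ x, ‖g x - ∑ k ∈ Finset.Icc (-L) L, g ((k : ℝ) / 2 ^ n) *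
      φ ((2 : ℝ) ^ n * x - k)‖ ≤ 4 * C * η := by
    intro x
    by_cases hx : x ∈ K
    · have hS : ∑ k ∈ Finset.Icc (-L) L, φ ((2 : ℝ) ^ n * x - k) = 1 := by
        apply G.sum_S
        intro k hk
        rw [Finset.mem_Icc] at hk ⊢
        have hxl : -((2 : ℝ) ^ n * (R₁ + 3)) ≤ (2 : ℝ) ^ n * x := by
          have := mul_le_mul_of_nonneg_left hx.1 h2n0.le
          linarith
        have hxu : (2 : ℝ) ^ n * x ≤ (2 : ℝ) ^ n * (R₁ + 3) := mul_le_mul_of_nonneg_left hx.2 h2n0.le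
        have hc := Int.le_ceil ((2 : ℝ) ^ n * (R₁ + 3))
        have u1 : ⌊(2 : ℝ) ^ n * x⌋ ≤ ⌈(2 : ℝ) ^ n * (R₁ + 3)⌉ := by
          have : (⌊(2 : ℝ) ^ n * x⌋ : ℝ) ≤ ⌈(2 : ℝ) ^ n * (R₁ + 3)⌉ :=
            (Int.floor_le _).trans (hxu.trans hc)
          exact_mod_cast this
        have l1 : -⌈(2 : ℝ) ^ n * (R₁ + 3)⌉ ≤ ⌊(2 : ℝ) ^ n * x⌋ := by
          rw [Int.le_floor]; push_cast; linarith
        omega
      have e : g x - ∑ k ∈ Finset.Icc (-L) L, g ((k : ℝ) / 2 ^ n) * φ ((2 : ℝ) ^ n * x - k)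
          = ∑ k ∈ Finset.Icc (-L) L, (g x - g ((k : ℝ) / 2 ^ n)) * φ ((2 : ℝ) ^ n * x - k) := by
        simp_rw [sub_mul]
        rw [Finset.sum_sub_distrib, ← Finset.mul_sum, hS, mul_one]
      rw [e]
      refine (norm_sum_le _ _).trans ?_
      calc ∑ k ∈ Finset.Icc (-L) L, ‖(g x - g ((k : ℝ) / 2 ^ n)) * φ ((2 : ℝ) ^ n * x - k)‖
          ≤ ∑ k ∈ Finset.Icc (-L) L, η * ‖φ ((2 : ℝ) ^ n * x - k)‖ := by
            apply Finset.sum_le_sum
            intro k _
            rw [norm_mul]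
            by_cases h : φ ((2 : ℝ) ^ n * x - k) = 0
            · rw [h]; simp
            · apply mul_le_mul_of_nonneg_right _ (norm_nonneg _)
              rw [← dist_eq_norm]
              apply (hδ' _).le
              rw [Real.dist_eq]
              exact (near x k h).trans hn
        _ = η * ∑ k ∈ Finset.Icc (-L) L, ‖φ ((2 : ℝ) ^ n * x - k)‖ := by rw [Finset.mul_sum]
        _ ≤ η * (4 * C) := mul_le_mul_of_nonneg_left (G.norm_sum_le hC _ _) hη0.le
        _ = 4 * C * η := by ring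
    · rw [hout x hx, norm_zero]
      positivity
  set D : ℝ → ℂ := fun x => g x - ∑ k ∈ Finset.Icc (-L) L, g ((k : ℝ) / 2 ^ n) *
      φ ((2 : ℝ) ^ n * x - k) with hD
  have hsub : Function.support D ⊆ K := by
    intro x hx
    by_contra h
    exact hx (hout x h)
  rw [← eLpNorm_restrict_eq_of_support_subset hsub]
  refine (eLpNorm_le_of_ae_bound (C := 4 * C * η) (Eventually.of_forall hin)).trans ?_
  rw [← hB, ← ENNReal.ofReal_toReal hBtop, ← ENNReal.ofReal_mul ENNReal.toReal_nonneg]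
  apply ENNReal.ofReal_le_ofReal
  have hb : 0 ≤ B.toReal := ENNReal.toReal_nonneg
  rw [hη]
  rw [show B.toReal * (4 * C * (ε / ((4 * C + 1) * (B.toReal + 1)))) =
    ε * ((B.toReal * (4 * C)) / ((4 * C + 1) * (B.toReal + 1))) by ring]
  have : (B.toReal * (4 * C)) / ((4 * C + 1) * (B.toReal + 1)) ≤ 1 := by
    rw [div_le_one (by positivity)]
    nlinarith
  calc ε * ((B.toReal * (4 * C)) / ((4 * C + 1) * (B.toReal + 1))) ≤ ε * 1 :=
        mul_le_mul_of_nonneg_left this hε.le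
    _ = ε := mul_one _

theorem V_dense (G : Good φ d) : (⨆ j : ℤ, V φ j).topologicalClosure = ⊤ := by
  rw [← Submodule.dense_iff_topologicalClosure_eq_top]
  intro f
  rw [Metric.mem_closure_iff]
  intro ε hε
  obtain ⟨g, hgs, hfg, hgc, hgm⟩ := (Lp.memLp f).exists_hasCompactSupport_eLpNorm_sub_le
    (by norm_num) (ε := ENNReal.ofReal (ε / 3)) (by simp; positivity)
  obtain ⟨j, S, c, h⟩ := approx G hgc hgs (ε := ε / 3) (by positivity)
  refine ⟨∑ k ∈ S, c k • el G j k, ?_, ?_⟩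
  · rw [SetLike.mem_coe]
    exact (le_iSup (V φ) j) (Submodule.sum_mem _ fun k _ => Submodule.smul_mem _ _ (el_mem G j k))
  · rw [Lp.dist_def]
    have e : (⇑f - ⇑(∑ k ∈ S, c k • el G j k : Lp ℂ 2 (volume : Measure ℝ))) =ᵐ[volume]
        (⇑f - g) + fun x => g x - ∑ k ∈ S, c k * dil φ j k x := by
      filter_upwards [coe_sum G j S c] with x hx
      simp only [Pi.sub_apply, Pi.add_apply, hx]
      ring
    rw [eLpNorm_congr_ae e]
    have hm2 : AEStronglyMeasurable (fun x => g x - ∑ k ∈ S, c k * dil φ j k x)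
        (volume : Measure ℝ) := by
      apply Continuous.aestronglyMeasurable
      apply hgc.sub
      apply continuous_finsetSum
      intro k _
      exact continuous_const.mul (G.dil_continuous j k)
    have hle := eLpNorm_add_le (p := 2) ((Lp.memLp f).1.sub hgm.1) hm2 (by norm_num)
    have hle2 : eLpNorm ((⇑f - g) + fun x => g x - ∑ k ∈ S, c k * dil φ j k x) 2 volume
        ≤ ENNReal.ofReal (ε / 3 + ε / 3) := by
      rw [ENNReal.ofReal_add (by positivity) (by positivity)]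
      exact hle.trans (add_le_add hfg h)
    have := ENNReal.toReal_mono ENNReal.ofReal_ne_top hle2
    rw [ENNReal.toReal_ofReal (by positivity)] at this
    linarith

end Pool.Agent.Helper577
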