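import Mathlib
import Pool.Agent.Helper577.MRA2

namespace Pool.Agent.Helper577

open MeasureTheory Filter Topology
open scoped ComplexConjugate ENNReal InnerProductSpace

variable {φ : ℝ → ℂ} {d : Fin 4 → ℂ}

theorem dil_ortho (G : Good φ d) (j k l : ℤ) :
    ∫ x, conj (dil φ j k x) * dil φ j l x = if k = l then 1 else 0 := by
  have h2 : (0 : ℝ) < 2 ^ j := by positivity
  have e : ∀ x, conj (dil φ j k x) * dil φ j l x = (((2 : ℝ) ^ j : ℝ) : ℂ) *
      (conj (φ ((2 : ℝ) ^ j * x - k)) * φ ((2 : ℝ) ^ j * x - l)) := by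
    intro x
    unfold dil
    have : (((2 : ℝ) ^ ((j : ℝ) / 2) : ℝ) : ℂ) * (((2 : ℝ) ^ ((j : ℝ) / 2) : ℝ) : ℂ)
        = (((2 : ℝ) ^ j : ℝ) : ℂ) := by
      rw [← Complex.ofReal_mul, ← Real.rpow_add (by norm_num)]
      congr 1
      rw [show (j : ℝ) / 2 + (j : ℝ) / 2 = (j : ℝ) by ring, Real.rpow_intCast]
    rw [map_mul, Complex.conj_ofReal]
    linear_combination (conj (φ ((2 : ℝ) ^ j * x - k)) * φ ((2 : ℝ) ^ j * x - l)) * this
  simp_rw [e]
  rw [integral_const_mul]
  have := Measure.integral_comp_mul_left (fun y : ℝ => conj (φ (y - k)) * φ (y - l)) ((2 : ℝ) ^ j)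
  rw [this, G.ortho k l, abs_of_pos (by positivity)]
  rw [Complex.real_smul, ← mul_assoc, ← Complex.ofReal_mul, mul_inv_cancel₀ h2.ne']
  simp

theorem el_inner (G : Good φ d) (j k l : ℤ) :
    ⟪el G j k, el G j l⟫_ℂ = if k = l then 1 else 0 := by
  rw [← dil_ortho G j k l, L2.inner_def]
  apply integral_congr_ae
  filter_upwards [el_coe G j k, el_coe G j l] with x h1 h2
  rw [h1, h2, RCLike.inner_apply, mul_comm]

/-- For `g` with only finitely many nonzero coefficients, the pairing with `V_j` is a finite sum. -/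
theorem pairing (G : Good φ d) (j : ℤ) (g : Lp ℂ 2 (volume : Measure ℝ)) (S : Finset ℤ)
    (hS : ∀ k, k ∉ S → ⟪g, el G j k⟫_ℂ = 0) (f : Lp ℂ 2 (volume : Measure ℝ)) (hf : f ∈ V φ j) :
    ⟪g, f⟫_ℂ = ∑ k ∈ S, ⟪g, el G j k⟫_ℂ * ⟪el G j k, f⟫_ℂ := by
  let T : Lp ℂ 2 (volume : Measure ℝ) →L[ℂ] ℂ :=
    innerSL ℂ g - ∑ k ∈ S, ⟪g, el G j k⟫_ℂ • innerSL ℂ (el G j k)
  have hT : ∀ f, T f = ⟪g, f⟫_ℂ - ∑ k ∈ S, ⟪g, el G j k⟫_ℂ * ⟪el G j k, f⟫_ℂ := by
    intro f
    simp only [T, sub_apply, sum_apply,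
      smul_apply, innerSL_apply_apply, smul_eq_mul]
  have hle : V φ j ≤ LinearMap.ker T.toLinearMap := by
    rw [V_eq G j]
    apply Submodule.topologicalClosure_minimal
    · rw [Submodule.span_le]
      rintro _ ⟨l, rfl⟩
      rw [SetLike.mem_coe, LinearMap.mem_ker]
      change T (el G j l) = 0
      rw [hT]
      simp_rw [el_inner G j]
      simp only [mul_ite, mul_one, mul_zero]
      rw [Finset.sum_ite_eq']
      split_ifs with h
      · ring
      · rw [hS l h]; ring
    · exact ContinuousLinearMap.isClosed_ker T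
  have := hle hf
  rw [LinearMap.mem_ker] at this
  change T f = 0 at this
  rw [hT, sub_eq_zero] at this
  exact this

theorem norm_el (G : Good φ d) (j k : ℤ) : ‖el G j k‖ = 1 := by
  have h := el_inner G j k k
  rw [if_pos rfl, inner_self_eq_norm_sq_to_K] at h
  have h2 : ‖el G j k‖ ^ 2 = 1 := by
    have h3 := congrArg (fun z : ℂ => ‖z‖) h
    simpa using h3
  nlinarith [norm_nonneg (el G j k), sq_nonneg (‖el G j k‖ - 1)]

theorem V_inter (G : Good φ d) : (⨅ j : ℤ, V φ j) = ⊥ := by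
  rw [eq_bot_iff]
  intro f hf
  rw [Submodule.mem_bot]
  rw [Submodule.mem_iInf] at hf
  obtain ⟨C, hC0, hC⟩ := G.bound
  -- step 1: f is orthogonal to compactly supported continuous functions
  have step : ∀ g : ℝ → ℂ, (hgc : Continuous g) → (hgs : HasCompactSupport g) →
      (hgm : MemLp g 2 (volume : Measure ℝ)) → ⟪hgm.toLp g, f⟫_ℂ = 0 := by
    intro g hgc hgs hgm
    obtain ⟨R, hR⟩ : ∃ R : ℝ, ∀ x, R < |x| → g x = 0 := by
      obtain ⟨R, hR⟩ := hgs.isCompact.isBounded.subset_closedBall (0 : ℝ)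
      refine ⟨R, fun x hx => ?_⟩
      by_contra h
      have := hR (subset_tsupport _ h)
      rw [Metric.mem_closedBall, dist_zero_right, Real.norm_eq_abs] at this
      linarith
    have hgi : Integrable g := hgc.integrable_of_hasCompactSupport hgs
    set I : ℝ := ∫ x, ‖g x‖ with hI
    have hI0 : 0 ≤ I := integral_nonneg fun x => norm_nonneg _
    have coef : ∀ (j k : ℤ), ⟪hgm.toLp g, el G j k⟫_ℂ = ∫ x, conj (g x) * dil φ j k x := by
      intro j k
      rw [L2.inner_def]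
      apply integral_congr_ae
      filter_upwards [el_coe G j k, hgm.coeFn_toLp] with x h1 h2
      rw [h1, h2, RCLike.inner_apply, mul_comm]
    have cbound : ∀ (j k : ℤ), ‖⟪hgm.toLp g, el G j k⟫_ℂ‖ ≤ (2 : ℝ) ^ ((j : ℝ) / 2) * C * I := by
      intro j k
      rw [coef]
      calc ‖∫ x, conj (g x) * dil φ j k x‖ ≤ ∫ x, ‖conj (g x) * dil φ j k x‖ :=
            norm_integral_le_integral_norm _
        _ ≤ ∫ x, (2 : ℝ) ^ ((j : ℝ) / 2) * C * ‖g x‖ := by
            apply integral_mono_of_nonneg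
            · exact Eventually.of_forall fun x => norm_nonneg _
            · exact hgi.norm.const_mul _
            · apply Eventually.of_forall
              intro x
              simp only
              rw [norm_mul, RCLike.norm_conj, mul_comm]
              apply mul_le_mul_of_nonneg_right _ (norm_nonneg _)
              unfold dil
              rw [norm_mul, Complex.norm_real, Real.norm_eq_abs,
                abs_of_pos (by positivity : (0 : ℝ) < 2 ^ ((j : ℝ) / 2))]
              exact mul_le_mul_of_nonneg_left (hC _) (by positivity)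
        _ = (2 : ℝ) ^ ((j : ℝ) / 2) * C * I := by rw [integral_const_mul]
    -- large negative scales
    have czero : ∀ (n : ℕ), R ≤ 2 ^ n → ∀ k : ℤ, k ∉ Finset.Icc (-4 : ℤ) 1 →
        ⟪hgm.toLp g, el G (-(n : ℤ)) k⟫_ℂ = 0 := by
      intro n hn k hk
      rw [coef]
      have : ∀ x, conj (g x) * dil φ (-(n : ℤ)) k x = 0 := by
        intro x
        by_cases hx : g x = 0
        · rw [hx]; simp
        · have hx' : |x| ≤ R := by
            by_contra h; push Not at h; exact hx (hR x h)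
          have h2n : (0 : ℝ) < 2 ^ n := by positivity
          have hy : |(2 : ℝ) ^ (-(n : ℤ)) * x| ≤ 1 := by
            rw [zpow_neg, zpow_natCast, abs_mul, abs_of_pos (by positivity),
              inv_mul_le_iff₀ h2n, mul_one]
            exact hx'.trans hn
          unfold dil
          have : φ ((2 : ℝ) ^ (-(n : ℤ)) * x - k) = 0 := by
            rw [abs_le] at hy
            rw [Finset.mem_Icc, not_and_or, not_le, not_le] at hk
            rcases hk with hk | hk
            · apply G.h3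
              have : (k : ℝ) ≤ -5 := by exact_mod_cast (by omega : k ≤ -5)
              linarith
            · apply G.h0
              have : (2 : ℝ) ≤ k := by exact_mod_cast (by omega : 2 ≤ k)
              linarith
          rw [this]
          simp
      simp [this]
    have main : ∀ n : ℕ, R ≤ 2 ^ n →
        ‖⟪hgm.toLp g, f⟫_ℂ‖ ≤ 6 * (C * I * ‖f‖) * (2 : ℝ) ^ (((-(n : ℤ) : ℤ) : ℝ) / 2) := by
      intro n hn
      rw [pairing G (-(n : ℤ)) (hgm.toLp g) (Finset.Icc (-4 : ℤ) 1) (czero n hn) f (hf _)]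
      refine (norm_sum_le _ _).trans ?_
      calc ∑ k ∈ Finset.Icc (-4 : ℤ) 1, ‖⟪hgm.toLp g, el G (-(n : ℤ)) k⟫_ℂ *
            ⟪el G (-(n : ℤ)) k, f⟫_ℂ‖
          ≤ ∑ k ∈ Finset.Icc (-4 : ℤ) 1, (2 : ℝ) ^ (((-(n : ℤ) : ℤ) : ℝ) / 2) * C * I * ‖f‖ := by
            apply Finset.sum_le_sum
            intro k _
            rw [norm_mul]
            have h1 := norm_inner_le_norm (𝕜 := ℂ) (el G (-(n : ℤ)) k) f
            rw [norm_el, one_mul] at h1
            exact mul_le_mul (cbound _ _) h1 (norm_nonneg _) (by positivity)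
        _ = 6 * (C * I * ‖f‖) * (2 : ℝ) ^ (((-(n : ℤ) : ℤ) : ℝ) / 2) := by
            rw [Finset.sum_const, Int.card_Icc]
            have : ((1 : ℤ) + 1 - (-4)).toNat = 6 := rfl
            rw [this, nsmul_eq_mul]
            push_cast
            ring
    have lim : Tendsto (fun n : ℕ => 6 * (C * I * ‖f‖) * (2 : ℝ) ^ (((-(n : ℤ) : ℤ) : ℝ) / 2))
        atTop (𝓝 (6 * (C * I * ‖f‖) * 0)) := by
      apply Tendsto.const_mul
      have e : ∀ n : ℕ, (2 : ℝ) ^ (((-(n : ℤ) : ℤ) : ℝ) / 2) = ((2 : ℝ) ^ (-(1 / 2) : ℝ)) ^ n := by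
        intro n
        rw [← Real.rpow_natCast, ← Real.rpow_mul (by norm_num)]
        congr 1
        push_cast
        ring
      simp_rw [e]
      apply tendsto_pow_atTop_nhds_zero_of_lt_one (by positivity)
      exact Real.rpow_lt_one_of_one_lt_of_neg (by norm_num) (by norm_num)
    rw [mul_zero] at lim
    have hev : ∀ᶠ n : ℕ in atTop, R ≤ (2 : ℝ) ^ n :=
      (tendsto_pow_atTop_atTop_of_one_lt (by norm_num)).eventually_ge_atTop R
    have : ‖⟪hgm.toLp g, f⟫_ℂ‖ ≤ 0 :=
      ge_of_tendsto lim (hev.mono fun n hn => main n hn)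
    exact norm_le_zero_iff.1 this
  -- step 2: f is small
  by_contra hne
  have hpos : 0 < ‖f‖ := norm_pos_iff.2 hne
  obtain ⟨g, hgs, hfg, hgc, hgm⟩ := (Lp.memLp f).exists_hasCompactSupport_eLpNorm_sub_le
    (by norm_num) (ε := ENNReal.ofReal (‖f‖ / 2)) (by simp; exact hne)
  have hdist : ‖f - hgm.toLp g‖ ≤ ‖f‖ / 2 := by
    rw [Lp.norm_def]
    have e : (⇑(f - hgm.toLp g)) =ᵐ[volume] (⇑f - g) := by
      filter_upwards [Lp.coeFn_sub f (hgm.toLp g), hgm.coeFn_toLp] with x h1 h2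
      rw [h1, Pi.sub_apply, h2, Pi.sub_apply]
    rw [eLpNorm_congr_ae e]
    have := ENNReal.toReal_mono ENNReal.ofReal_ne_top hfg
    rwa [ENNReal.toReal_ofReal (by positivity)] at this
  have h0 := step g hgc hgs hgm
  have h1 : ⟪f, f⟫_ℂ = ⟪f - hgm.toLp g, f⟫_ℂ := by
    rw [inner_sub_left, h0, sub_zero]
  have h2 : ‖f‖ ^ 2 ≤ ‖f‖ / 2 * ‖f‖ := by
    calc ‖f‖ ^ 2 = ‖⟪f, f⟫_ℂ‖ := by
          rw [inner_self_eq_norm_sq_to_K]; simp
      _ ≤ ‖f - hgm.toLp g‖ * ‖f‖ := by rw [h1]; exact norm_inner_le_norm _ _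
      _ ≤ ‖f‖ / 2 * ‖f‖ := mul_le_mul_of_nonneg_right hdist (norm_nonneg _)
  nlinarith

end Pool.Agent.Helper577
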