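import Mathlib

namespace Pool.Agent.Helper577

open MeasureTheory

noncomputable def ac (φ : ℝ → ℝ) (x : ℝ) : ℝ := ∫ t, φ t * φ (t - x)

section
variable {φ : ℝ → ℝ} (hc : Continuous φ) (h0 : ∀ t ≤ 0, φ t = 0) (h3 : ∀ t, 3 ≤ t → φ t = 0)

theorem ac_symm (φ : ℝ → ℝ) (x : ℝ) : ac φ (-x) = ac φ x := by
  unfold ac
  rw [← integral_sub_right_eq_self (fun t => φ t * φ (t - -x)) x]
  congr 1
  funext t
  have : t - x - -x = t := by ring
  rw [this, mul_comm]

include h0 h3 in
theorem ac_zero (x : ℝ) (hx : 3 ≤ x) : ac φ x = 0 := by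
  unfold ac
  have : ∀ t, φ t * φ (t - x) = 0 := by
    intro t
    rcases le_total t 3 with h | h
    · rw [h0 (t - x) (by linarith), mul_zero]
    · rw [h3 t h, zero_mul]
  simp [this]

theorem ac_scale (φ : ℝ → ℝ) (i m : ℝ) :
    ∫ t, φ (2 * t - i) * φ (2 * t - m) = 1 / 2 * ac φ (m - i) := by
  unfold ac
  have h1 := Measure.integral_comp_mul_left (fun y => φ (y - i) * φ (y - m)) 2
  rw [h1]
  have h2 := integral_sub_right_eq_self (μ := (volume : Measure ℝ))
    (fun t => φ t * φ (t - (m - i))) i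
  have h3 : (fun t => φ (t - i) * φ (t - i - (m - i))) = fun t => φ (t - i) * φ (t - m) := by
    funext t
    congr 2
    ring
  rw [← h2]
  simp only [h3]
  rw [abs_of_pos (by norm_num), smul_eq_mul]
  norm_num

include h0 h3 in
theorem compactSupport : HasCompactSupport φ := by
  apply HasCompactSupport.intro (isCompact_Icc (a := (0 : ℝ)) (b := 3))
  intro t ht
  simp only [Set.mem_Icc, not_and_or, not_le] at ht
  rcases ht with h | h
  · exact h0 t h.le
  · exact h3 t h.le

include hc h0 h3 in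
theorem integrable_prod (i m : ℝ) : Integrable fun t => φ (2 * t - i) * φ (2 * t - m) := by
  apply Continuous.integrable_of_hasCompactSupport (by fun_prop)
  apply HasCompactSupport.intro (isCompact_Icc (a := (i / 2 : ℝ)) (b := (i + 3) / 2))
  intro t ht
  simp only [Set.mem_Icc, not_and_or, not_le] at ht
  rcases ht with h | h
  · rw [h0 _ (by linarith), zero_mul]
  · rw [h3 _ (by linarith), zero_mul]

/-- the mask -/
def dd (p q : ℝ) : Fin 4 → ℝ := ![p, 1 - q, 1 - p, q]

include hc h0 h3 in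
theorem ac_rec {p q : ℝ} (href : ∀ t, φ (t / 2) = p * φ t + (1 - q) * φ (t - 1) +
    (1 - p) * φ (t - 2) + q * φ (t - 3)) (k : ℝ) :
    ac φ k = ∑ i : Fin 4, ∑ j : Fin 4, dd p q i * dd p q j *
      (1 / 2 * ac φ (2 * k + (j : ℕ) - (i : ℕ))) := by
  have e : ∀ t, φ t = ∑ i : Fin 4, dd p q i * φ (2 * t - (i : ℕ)) := by
    intro t
    have := href (2 * t)
    rw [show 2 * t / 2 = t by ring] at this
    rw [this]
    simp [Fin.sum_univ_four, dd]
  have e2 : ∀ t, φ t * φ (t - k) = ∑ i : Fin 4, ∑ j : Fin 4, dd p q i * dd p q j *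
      (φ (2 * t - (i : ℕ)) * φ (2 * t - (2 * k + (j : ℕ)))) := by
    intro t
    conv_lhs => rw [e t, e (t - k)]
    rw [Finset.sum_mul_sum]
    apply Finset.sum_congr rfl
    intro i _
    apply Finset.sum_congr rfl
    intro j _
    have : 2 * (t - k) - (j : ℕ) = 2 * t - (2 * k + (j : ℕ)) := by ring
    rw [this]
    ring
  have hl : ac φ k = ∫ t, φ t * φ (t - k) := rfl
  rw [hl]
  simp_rw [e2]
  rw [integral_finsetSum]
  · apply Finset.sum_congr rfl
    intro i _
    rw [integral_finsetSum]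
    · apply Finset.sum_congr rfl
      intro j _
      rw [integral_const_mul, ac_scale]
    · intro j _
      exact (integrable_prod hc h0 h3 _ _).const_mul _
  · intro i _
    apply integrable_finsetSum
    intro j _
    exact (integrable_prod hc h0 h3 _ _).const_mul _

include hc h0 h3 in
theorem ac_one_two {p q : ℝ} (href : ∀ t, φ (t / 2) = p * φ t + (1 - q) * φ (t - 1) +
    (1 - p) * φ (t - 2) + q * φ (t - 3)) (hqmf : p * (1 - p) + (1 - q) * q = 0)
    (hpq : p * q ≠ 1) : ac φ 1 = 0 ∧ ac φ 2 = 0 := by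
  have r1 := ac_rec hc h0 h3 href 1
  have r2 := ac_rec hc h0 h3 href 2
  have z : ∀ x, 3 ≤ x → ac φ x = 0 := ac_zero h0 h3
  have sy : ac φ (-1) = ac φ 1 := ac_symm φ 1
  simp only [Fin.sum_univ_four, dd, Fin.isValue, Matrix.cons_val_zero, Matrix.cons_val_one,
    Matrix.cons_val, Fin.coe_ofNat_eq_mod, Nat.zero_mod, Nat.cast_zero, Nat.one_mod,
    Nat.cast_one, Nat.reduceMod, Nat.cast_ofNat] at r1 r2
  norm_num at r1 r2
  rw [z 3 (by norm_num), z 4 (by norm_num), z 5 (by norm_num), sy] at r1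
  rw [z 3 (by norm_num), z 4 (by norm_num), z 5 (by norm_num), z 6 (by norm_num),
    z 7 (by norm_num)] at r2
  have e1 : ac φ 1 * (1 - p * q) = 0 := by
    linear_combination 2 * r1 + 2 * r2 - (ac φ 2 - ac φ 0) * hqmf
  have a1 : ac φ 1 = 0 := by
    rcases mul_eq_zero.1 e1 with h | h
    · exact h
    · exact absurd (by linarith) hpq
  refine ⟨a1, ?_⟩
  rw [a1] at r2
  linear_combination r2 + 1 / 2 * ac φ 2 * hqmf

include hc h0 h3 in
theorem integral_one (hsum : ∀ u, 0 ≤ u → u ≤ 1 → φ u + φ (u + 1) + φ (u + 2) = 1) :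
    ∫ t, φ t = 1 := by
  have h1 : ∫ t, φ t = ∫ t in Set.Ioc (0 : ℝ) 3, φ t := by
    rw [setIntegral_eq_integral_of_forall_compl_eq_zero]
    intro x hx
    simp only [Set.mem_Ioc, not_and_or, not_lt, not_le] at hx
    rcases hx with h | h
    · exact h0 x h
    · exact h3 x h.le
  have hi : ∀ a b : ℝ, IntervalIntegrable φ volume a b := fun a b => hc.intervalIntegrable a b
  rw [h1, ← intervalIntegral.integral_of_le (by norm_num),
    ← intervalIntegral.integral_add_adjacent_intervals (hi 0 1) (hi 1 3),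
    ← intervalIntegral.integral_add_adjacent_intervals (hi 1 2) (hi 2 3)]
  have e1 : ∫ t in (1 : ℝ)..2, φ t = ∫ t in (0 : ℝ)..1, φ (t + 1) := by
    rw [intervalIntegral.integral_comp_add_right]; norm_num
  have e2 : ∫ t in (2 : ℝ)..3, φ t = ∫ t in (0 : ℝ)..1, φ (t + 2) := by
    rw [intervalIntegral.integral_comp_add_right]; norm_num
  have hi1 : IntervalIntegrable (fun t => φ (t + 1)) volume 0 1 :=
    (by fun_prop : Continuous fun t => φ (t + 1)).intervalIntegrable _ _
  have hi2 : IntervalIntegrable (fun t => φ (t + 2)) volume 0 1 :=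
    (by fun_prop : Continuous fun t => φ (t + 2)).intervalIntegrable _ _
  rw [e1, e2, ← intervalIntegral.integral_add hi1 hi2,
    ← intervalIntegral.integral_add (hi 0 1) (hi1.add hi2)]
  have e3 : ∫ t in (0 : ℝ)..1, (φ t + (φ (t + 1) + φ (t + 2))) = ∫ t in (0 : ℝ)..1, (1 : ℝ) := by
    apply intervalIntegral.integral_congr
    intro x hx
    rw [Set.uIcc_of_le (by norm_num)] at hx
    have := hsum x hx.1 hx.2
    simp only
    linarith
  rw [e3]
  simp

include h0 h3 in
theorem sum_five (hsum : ∀ u, 0 ≤ u → u ≤ 1 → φ u + φ (u + 1) + φ (u + 2) = 1) (t : ℝ) :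
    φ t * φ (t - 0) + (φ t * φ (t - 1) + φ t * φ (t - (-1))) +
      (φ t * φ (t - 2) + φ t * φ (t - (-2))) = φ t := by
  have e : ∀ x : ℝ, t - -x = t + x := by intro x; ring
  rw [sub_zero, e, e]
  rcases le_total t 0 with ha | ha
  · rw [h0 t ha]; ring
  rcases le_total t 1 with hb | hb
  · have := hsum t ha hb
    rw [h0 (t - 1) (by linarith), h0 (t - 2) (by linarith)]
    linear_combination φ t * this
  rcases le_total t 2 with hd | hd
  · have := hsum (t - 1) (by linarith) (by linarith)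
    rw [show t - 1 + 1 = t by ring, show t - 1 + 2 = t + 1 by ring] at this
    rw [h0 (t - 2) (by linarith), h3 (t + 2) (by linarith)]
    linear_combination φ t * this
  rcases le_total t 3 with he | he
  · have := hsum (t - 2) (by linarith) (by linarith)
    rw [show t - 2 + 1 = t - 1 by ring, show t - 2 + 2 = t by ring] at this
    rw [h3 (t + 1) (by linarith), h3 (t + 2) (by linarith)]
    linear_combination φ t * this
  · rw [h3 t he]; ring

include hc h0 h3 in
theorem ac_zero_eq_one {p q : ℝ} (href : ∀ t, φ (t / 2) = p * φ t + (1 - q) * φ (t - 1) +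
    (1 - p) * φ (t - 2) + q * φ (t - 3)) (hqmf : p * (1 - p) + (1 - q) * q = 0)
    (hpq : p * q ≠ 1) (hsum : ∀ u, 0 ≤ u → u ≤ 1 → φ u + φ (u + 1) + φ (u + 2) = 1) :
    ac φ 0 = 1 := by
  obtain ⟨a1, a2⟩ := ac_one_two hc h0 h3 href hqmf hpq
  have b1 : ac φ (-1) = 0 := by rw [ac_symm, a1]
  have b2 : ac φ (-2) = 0 := by rw [ac_symm, a2]
  have hint : ∀ x : ℝ, Integrable fun t => φ t * φ (t - x) := by
    intro x
    apply Continuous.integrable_of_hasCompactSupport (by fun_prop)
    exact (compactSupport h0 h3).mul_right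
  have h : ∫ t, (φ t * φ (t - 0) + (φ t * φ (t - 1) + φ t * φ (t - (-1))) +
      (φ t * φ (t - 2) + φ t * φ (t - (-2)))) = 1 := by
    refine Eq.trans ?_ (integral_one hc h0 h3 hsum)
    congr 1
    funext t
    exact sum_five h0 h3 hsum t
  have i1 : Integrable fun t => φ t * φ (t - 1) + φ t * φ (t - (-1)) := (hint 1).add (hint (-1))
  have i2 : Integrable fun t => φ t * φ (t - 2) + φ t * φ (t - (-2)) := (hint 2).add (hint (-2))
  have i3 : Integrable fun t => φ t * φ (t - 0) + (φ t * φ (t - 1) + φ t * φ (t - (-1))) :=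
    (hint 0).add i1
  rw [integral_add i3 i2,
    integral_add (hint 0) i1, integral_add (hint 1) (hint (-1)),
    integral_add (hint 2) (hint (-2))] at h
  unfold ac at *
  linarith

/-- orthonormality of the integer translates -/
theorem ortho {p q : ℝ} (hc : Continuous φ) (h0 : ∀ t ≤ 0, φ t = 0) (h3 : ∀ t, 3 ≤ t → φ t = 0)
    (href : ∀ t, φ (t / 2) = p * φ t + (1 - q) * φ (t - 1) +
    (1 - p) * φ (t - 2) + q * φ (t - 3)) (hqmf : p * (1 - p) + (1 - q) * q = 0)
    (hpq : p * q ≠ 1) (hsum : ∀ u, 0 ≤ u → u ≤ 1 → φ u + φ (u + 1) + φ (u + 2) = 1)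
    (k l : ℤ) : ∫ t, φ (t - k) * φ (t - l) = if k = l then 1 else 0 := by
  have e : ∫ t, φ (t - k) * φ (t - l) = ac φ ((l - k : ℤ) : ℝ) := by
    unfold ac
    rw [← integral_sub_right_eq_self (fun t => φ t * φ (t - ((l - k : ℤ) : ℝ))) (k : ℝ)]
    congr 1
    funext t
    congr 2
    push_cast
    ring
  rw [e]
  obtain ⟨a1, a2⟩ := ac_one_two hc h0 h3 href hqmf hpq
  have a0 := ac_zero_eq_one hc h0 h3 href hqmf hpq hsum
  have key : ∀ n : ℕ, ac φ (n : ℝ) = if n = 0 then 1 else 0 := by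
    intro n
    match n with
    | 0 => simpa using a0
    | 1 => simpa using a1
    | 2 => simpa using a2
    | n + 3 =>
      rw [if_neg (by omega)]
      apply ac_zero h0 h3
      push_cast
      have : (0 : ℝ) ≤ n := Nat.cast_nonneg n
      linarith
  obtain ⟨n, hn | hn⟩ := Int.eq_nat_or_neg (l - k)
  · rw [hn]
    have := key n
    push_cast
    rw [this]
    by_cases hkl : k = l
    · rw [if_pos hkl, if_pos (by omega)]
    · rw [if_neg hkl, if_neg (by omega)]
  · rw [hn]
    have := key n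
    push_cast
    rw [ac_symm, this]
    by_cases hkl : k = l
    · rw [if_pos hkl, if_pos (by omega)]
    · rw [if_neg hkl, if_neg (by omega)]

end

end Pool.Agent.Helper577
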