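import Mathlib
import Pool.Agent.Helper577.Cross

namespace Pool.Agent.Helper577

open MeasureTheory

section defs
variable (s : ℝ)

noncomputable def aa (u : ℝ) : ℝ := X (s, u) / (1 + s)
noncomputable def cc (u : ℝ) : ℝ := s * Y (s, u) / (1 + s)
noncomputable def ph (t : ℝ) : ℝ := aa s t - aa s (t - 1) - cc s (t - 1) + cc s (t - 2)

end defs

variable {s : ℝ}

theorem aa_left (t : ℝ) (ht : t ≤ 0) : aa s t = 0 := by
  unfold aa; rw [X_left s t ht, zero_div]
theorem aa_right (t : ℝ) (ht : 1 ≤ t) : aa s t = 1 / (1 + s) := by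
  unfold aa; rw [X_right s t ht]
theorem cc_left (t : ℝ) (ht : t ≤ 0) : cc s t = s / (1 + s) := by
  unfold cc; rw [Y_left s t ht, mul_one]
theorem cc_right (t : ℝ) (ht : 1 ≤ t) : cc s t = 0 := by
  unfold cc; rw [Y_right s t ht, mul_zero, zero_div]

theorem ph_continuous : Continuous (ph s) := by
  have h1 := X_continuous
  have h2 := Y_continuous
  unfold ph aa cc
  fun_prop

theorem ph_le_one (t : ℝ) (ht : t ≤ 1) : ph s t = aa s t := by
  unfold ph
  rw [aa_left (t - 1) (by linarith), cc_left (t - 1) (by linarith), cc_left (t - 2) (by linarith)]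
  ring

theorem ph_mid (hs : s ∈ Set.Icc (-1 / 2 : ℝ) (-1 / 5)) (t : ℝ) (h1 : 1 ≤ t) (h2 : t ≤ 2) :
    ph s t = 1 - aa s (t - 1) - cc s (t - 1) := by
  unfold ph
  rw [aa_right t h1, cc_left (t - 2) (by linarith)]
  have : (1 + s) ≠ 0 := by have := hs.1; intro h; linarith
  field_simp
  ring

theorem ph_ge_two (t : ℝ) (ht : 2 ≤ t) : ph s t = cc s (t - 2) := by
  unfold ph
  rw [aa_right t (by linarith), aa_right (t - 1) (by linarith), cc_right (t - 1) (by linarith)]
  ring

theorem ph_le_zero (t : ℝ) (ht : t ≤ 0) : ph s t = 0 := by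
  rw [ph_le_one t (by linarith), aa_left t ht]

theorem ph_ge_three (t : ℝ) (ht : 3 ≤ t) : ph s t = 0 := by
  rw [ph_ge_two t (by linarith), cc_right _ (by linarith)]

section rel
variable (hs : s ∈ Set.Icc (-1 / 2 : ℝ) (-1 / 5))
include hs

theorem pp_eq : pp s = (1 + s) / (1 + s ^ 2) := by unfold pp; rw [cs_eq hs.1 hs.2]
theorem qq_eq : qq s = s * (1 + s) / (1 + s ^ 2) := by unfold qq; rw [cs_eq hs.1 hs.2]
theorem mm_eq : mm s = -2 * s / (1 + s ^ 2) := by unfold mm; rw [cs_eq hs.1 hs.2]
theorem s_ne : (1 + s) ≠ 0 := by have := hs.1; intro h; linarith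
theorem s0_ne : s ≠ 0 := by have := hs.2; intro h; linarith

omit hs in
theorem aa_half0 (u : ℝ) (hu : u ≤ 1) : aa s (u / 2) = pp s * aa s u := by
  unfold aa; rw [X_half0 s u hu]; ring

theorem cc_half0 (u : ℝ) (hu : u ≤ 1) :
    cc s (u / 2) = qq s - qq s * aa s u + (1 - pp s - qq s) * cc s u := by
  unfold cc aa
  rw [Y_half0 s u hu, mm_eq hs, qq_eq hs, pp_eq hs]
  have h1 := s_ne hs
  have h2 := (den_pos s).ne'
  field_simp
  ring

theorem aa_half1 (u : ℝ) (hu : 0 ≤ u) :
    aa s ((u + 1) / 2) = pp s + (1 - pp s - qq s) * aa s u - pp s * cc s u := by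
  unfold cc aa
  rw [X_half1 s u hu, mm_eq hs, qq_eq hs, pp_eq hs]
  have h1 := s_ne hs
  have h2 := (den_pos s).ne'
  field_simp
  ring

omit hs in
theorem cc_half1 (u : ℝ) (hu : 0 ≤ u) : cc s ((u + 1) / 2) = qq s * cc s u := by
  unfold cc; rw [Y_half1 s u hu]; ring

theorem qmf : pp s * (1 - pp s) + (1 - qq s) * qq s = 0 := by
  rw [pp_eq hs, qq_eq hs]
  have h2 := (den_pos s).ne'
  field_simp
  ring

/-- the dilation equation -/
theorem ph_refine (t : ℝ) : ph s (t / 2) = pp s * ph s t + (1 - qq s) * ph s (t - 1) +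
    (1 - pp s) * ph s (t - 2) + qq s * ph s (t - 3) := by
  rcases le_total t 0 with h0 | h0
  · rw [ph_le_zero _ (by linarith), ph_le_zero _ (by linarith), ph_le_zero _ (by linarith),
      ph_le_zero _ (by linarith), ph_le_zero _ (by linarith)]
    ring
  rcases le_total t 1 with h1 | h1
  · rw [ph_le_one (t / 2) (by linarith), ph_le_one t (by linarith), ph_le_zero (t - 1) (by linarith),
      ph_le_zero (t - 2) (by linarith), ph_le_zero (t - 3) (by linarith), aa_half0 t h1]
    ring
  rcases le_total t 2 with h2 | h2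
  · rw [ph_le_one (t / 2) (by linarith), ph_mid hs t (by linarith) h2,
      ph_le_one (t - 1) (by linarith),
      ph_le_zero (t - 2) (by linarith), ph_le_zero (t - 3) (by linarith)]
    have e : t / 2 = ((t - 1) + 1) / 2 := by ring
    rw [e, aa_half1 hs (t - 1) (by linarith)]
    ring
  rcases le_total t 3 with h3 | h3
  · rw [ph_mid hs (t / 2) (by linarith) (by linarith), ph_ge_two t (by linarith),
      ph_mid hs (t - 1) (by linarith) (by linarith),
      ph_le_one (t - 2) (by linarith), ph_le_zero (t - 3) (by linarith)]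
    have e : t / 2 - 1 = (t - 2) / 2 := by ring
    have e' : t - 1 - 1 = t - 2 := by ring
    rw [e, e', aa_half0 (t - 2) (by linarith), cc_half0 hs (t - 2) (by linarith)]
    ring
  rcases le_total t 4 with h4 | h4
  · rw [ph_mid hs (t / 2) (by linarith) (by linarith), ph_ge_three t (by linarith),
      ph_ge_two (t - 1) (by linarith),
      ph_mid hs (t - 2) (by linarith) (by linarith), ph_le_one (t - 3) (by linarith)]
    have e : t / 2 - 1 = ((t - 3) + 1) / 2 := by ring
    have e' : t - 1 - 2 = t - 3 := by ring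
    have e'' : t - 2 - 1 = t - 3 := by ring
    rw [e, e', e'', aa_half1 hs (t - 3) (by linarith), cc_half1 (t - 3) (by linarith)]
    ring
  rcases le_total t 5 with h5 | h5
  · rw [ph_ge_two (t / 2) (by linarith), ph_ge_three t (by linarith),
      ph_ge_three (t - 1) (by linarith),
      ph_ge_two (t - 2) (by linarith), ph_mid hs (t - 3) (by linarith) (by linarith)]
    have e : t / 2 - 2 = (t - 4) / 2 := by ring
    have e' : t - 2 - 2 = t - 4 := by ring
    have e'' : t - 3 - 1 = t - 4 := by ring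
    rw [e, e', e'', cc_half0 hs (t - 4) (by linarith)]
    ring
  rcases le_total t 6 with h6 | h6
  · rw [ph_ge_two (t / 2) (by linarith), ph_ge_three t (by linarith),
      ph_ge_three (t - 1) (by linarith),
      ph_ge_three (t - 2) (by linarith), ph_ge_two (t - 3) (by linarith)]
    have e : t / 2 - 2 = ((t - 5) + 1) / 2 := by ring
    have e' : t - 3 - 2 = t - 5 := by ring
    rw [e, e', cc_half1 (t - 5) (by linarith)]
    ring
  · rw [ph_ge_three _ (by linarith), ph_ge_three _ (by linarith), ph_ge_three _ (by linarith),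
      ph_ge_three _ (by linarith), ph_ge_three _ (by linarith)]
    ring

theorem ph_sum (u : ℝ) (h0 : 0 ≤ u) (h1 : u ≤ 1) : ph s u + ph s (u + 1) + ph s (u + 2) = 1 := by
  rw [ph_le_one u h1, ph_mid hs (u + 1) (by linarith) (by linarith), ph_ge_two (u + 2) (by linarith)]
  have e1 : u + 1 - 1 = u := by ring
  have e2 : u + 2 - 2 = u := by ring
  rw [e1, e2]
  ring

end rel

end Pool.Agent.Helper577
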