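import Mathlib
import Pool.Agent.Helper577.Phi
import Pool.Agent.Helper577.Ortho
import Pool.Agent.Helper577.MRA3

namespace Pool.Agent.Helper577

open MeasureTheory
open scoped ComplexConjugate

/-- the complex-valued scaling function -/
noncomputable def phc (s : ℝ) (t : ℝ) : ℂ := (ph s t : ℂ)

noncomputable def dc (s : ℝ) : Fin 4 → ℂ :=
  ![(pp s : ℂ), ((1 - qq s : ℝ) : ℂ), ((1 - pp s : ℝ) : ℂ), (qq s : ℂ)]

theorem pq_ne (s : ℝ) : pp s * qq s ≠ 1 := by
  have h1 := pp_nonneg s
  have h2 := qq_nonpos s
  have := mul_nonpos_of_nonneg_of_nonpos h1 h2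
  intro h
  linarith

theorem good {s : ℝ} (hs : s ∈ Set.Icc (-1 / 2 : ℝ) (-1 / 5)) : Good (phc s) (dc s) where
  cont := Complex.continuous_ofReal.comp ph_continuous
  h0 := fun t ht => by unfold phc; rw [ph_le_zero t ht]; simp
  h3 := fun t ht => by unfold phc; rw [ph_ge_three t ht]; simp
  ref := fun t => by
    unfold phc
    rw [ph_refine hs t]
    simp [Fin.sum_univ_four, dc]
  sum := fun u h0 h1 => by
    unfold phc
    have := ph_sum hs u h0 h1
    exact_mod_cast this
  ortho := fun k l => by
    have h := ortho (φ := ph s) ph_continuous ph_le_zero ph_ge_three (ph_refine hs) (qmf hs)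
      (pq_ne s) (ph_sum hs) k l
    unfold phc
    simp_rw [Complex.conj_ofReal, ← Complex.ofReal_mul]
    rw [integral_complex_ofReal, h]
    split_ifs <;> simp

theorem isScaling {φ : ℝ → ℂ} {d : Fin 4 → ℂ} (G : Good φ d) : IsOrthogonalScalingFunction φ where
  memLp := G.cont.memLp_of_hasCompactSupport G.supp
  orthonormal := G.ortho
  twoScale := by
    refine ⟨∑ i : Fin 4, Finsupp.single ((i : ℕ) : ℤ) (d i), fun t => ?_⟩
    rw [G.ref t, Fin.sum_univ_four, Fin.sum_univ_four]
    rw [Finsupp.sum_add_index', Finsupp.sum_add_index', Finsupp.sum_add_index',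
      Finsupp.sum_single_index, Finsupp.sum_single_index, Finsupp.sum_single_index,
      Finsupp.sum_single_index]
    · simp
    all_goals first
      | simp
      | (intros; ring)
  nested := V_mono G
  dense := V_dense G
  inter := V_inter G


end Pool.Agent.Helper577
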